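import Pool.Agent.Run7.h184.Unif

set_option autoImplicit false

open MeasureTheory Set Filter Topology Metric

namespace Run7.h184

variable {n : ℕ}

/-- square of the length of the projected gradient -/
noncomputable def Nf (u : V n → ℝ) (a b x : V n) : ℝ := fderiv ℝ u x a ^ 2 + fderiv ℝ u x b ^ 2

theorem Nf_nonneg (u : V n → ℝ) (a b x : V n) : 0 ≤ Nf u a b x := by
  unfold Nf; positivity

/-- a bounded continuous argument of `∂_a u + i ∂_b u` off the zeros -/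
structure Arg (E : Set (V n)) (u : V n → ℝ) (a b : V n) (θ : V n → ℝ) (C : ℝ) : Prop where
  cont : ContinuousOn θ {x | x ∈ E ∧ Nf u a b x ≠ 0}
  bound : ∀ x ∈ E, Nf u a b x ≠ 0 → |θ x| ≤ C
  ea : ∀ x ∈ E, Nf u a b x ≠ 0 → fderiv ℝ u x a = Real.sqrt (Nf u a b x) * Real.cos (θ x)
  eb : ∀ x ∈ E, Nf u a b x ≠ 0 → fderiv ℝ u x b = Real.sqrt (Nf u a b x) * Real.sin (θ x)

theorem Sol.contDiffOn_Nf {E : Set (V n)} {u : V n → ℝ} (S : Sol E u) (a b : V n) :
    ContDiffOn ℝ 1 (Nf u a b) E :=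
  ((contDiffOn_fderiv_apply S.op S.c2 a).pow 2).add ((contDiffOn_fderiv_apply S.op S.c2 b).pow 2)

theorem Sol.isOpen_G {E : Set (V n)} {u : V n → ℝ} (S : Sol E u) (a b : V n) :
    IsOpen {x | x ∈ E ∧ Nf u a b x ≠ 0} := by
  have := (S.contDiffOn_Nf a b).continuousOn.isOpen_inter_preimage S.op
    (isOpen_compl_singleton (x := (0:ℝ)))
  exact this

theorem Arg.contDiffAt {E : Set (V n)} {u : V n → ℝ} (S : Sol E u) {a b : V n} {θ : V n → ℝ}
    {C : ℝ} (A : Arg E u a b θ C) {x : V n} (hx : x ∈ E) (hN : Nf u a b x ≠ 0) :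
    ContDiffAt ℝ 1 θ x := by
  set c := θ x with hc
  have hGo := S.isOpen_G a b
  have hxG : x ∈ {x | x ∈ E ∧ Nf u a b x ≠ 0} := ⟨hx, hN⟩
  have hcont : ContinuousAt θ x := A.cont.continuousAt (hGo.mem_nhds hxG)
  have h1 : ∀ᶠ y in 𝓝 x, |θ y - c| < Real.pi / 2 := by
    have : Tendsto (fun y => |θ y - c|) (𝓝 x) (𝓝 0) := by
      have := ((hcont.tendsto).sub_const c).abs
      simpa [hc] using this
    exact this.eventually (gt_mem_nhds (by positivity))
  have hca : ContDiffAt ℝ 1 (fun y => fderiv ℝ u y a) x :=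
    (contDiffOn_fderiv_apply S.op S.c2 a).contDiffAt (S.op.mem_nhds hx)
  have hcb : ContDiffAt ℝ 1 (fun y => fderiv ℝ u y b) x :=
    (contDiffOn_fderiv_apply S.op S.c2 b).contDiffAt (S.op.mem_nhds hx)
  set P : V n → ℝ := fun y => -Real.sin c * fderiv ℝ u y a + Real.cos c * fderiv ℝ u y b with hP
  set Q : V n → ℝ := fun y => Real.cos c * fderiv ℝ u y a + Real.sin c * fderiv ℝ u y b with hQ
  have hPc : ContDiffAt ℝ 1 P x := (contDiffAt_const.mul hca).add (contDiffAt_const.mul hcb)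
  have hQc : ContDiffAt ℝ 1 Q x := (contDiffAt_const.mul hca).add (contDiffAt_const.mul hcb)
  have eP : ∀ y ∈ E, Nf u a b y ≠ 0 → P y = Real.sqrt (Nf u a b y) * Real.sin (θ y - c) := by
    intro y hy hyN
    simp only [hP]
    rw [A.ea y hy hyN, A.eb y hy hyN, Real.sin_sub]
    ring
  have eQ : ∀ y ∈ E, Nf u a b y ≠ 0 → Q y = Real.sqrt (Nf u a b y) * Real.cos (θ y - c) := by
    intro y hy hyN
    simp only [hQ]
    rw [A.ea y hy hyN, A.eb y hy hyN, Real.cos_sub]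
    ring
  have hs : ∀ y, Nf u a b y ≠ 0 → 0 < Real.sqrt (Nf u a b y) := fun y hy =>
    Real.sqrt_pos.2 (lt_of_le_of_ne (Nf_nonneg u a b y) hy.symm)
  have hQx : Q x ≠ 0 := by
    rw [eQ x hx hN]
    simp only [hc, sub_self, Real.cos_zero, mul_one]
    exact (hs x hN).ne'
  have hfin : ContDiffAt ℝ 1 (fun y => c + Real.arctan (P y / Q y)) x :=
    contDiffAt_const.add ((Real.contDiff_arctan.contDiffAt).comp x (hPc.div hQc hQx))
  refine hfin.congr_of_eventuallyEq ?_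
  filter_upwards [h1, hGo.mem_nhds hxG] with y hy hyG
  rw [eP y hyG.1 hyG.2, eQ y hyG.1 hyG.2, mul_div_mul_left _ _ (hs y hyG.2).ne',
    ← Real.tan_eq_sin_div_cos, Real.arctan_tan (by linarith [(abs_lt.1 hy).1])
    (by linarith [(abs_lt.1 hy).2])]
  ring

/-- the derivative of the argument -/
theorem Arg.fderiv_eq {E : Set (V n)} {u : V n → ℝ} (S : Sol E u) {a b : V n} {θ : V n → ℝ}
    {C : ℝ} (A : Arg E u a b θ C) {x : V n} (hx : x ∈ E) (hN : Nf u a b x ≠ 0) :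
    Nf u a b x • fderiv ℝ θ x = Wf u a b x := by
  have hd : DifferentiableAt ℝ θ x := (A.contDiffAt S hx hN).differentiableAt one_ne_zero
  have hGo := S.isOpen_G a b
  have hxG : x ∈ {x | x ∈ E ∧ Nf u a b x ≠ 0} := ⟨hx, hN⟩
  have ha : HasFDerivAt (fun y => fderiv ℝ u y a) (fderiv ℝ (fderiv ℝ u) x a) x := by
    rw [← fderiv_apply_eq' S.op S.c2 hx]
    exact (((contDiffOn_fderiv_apply S.op S.c2 a).differentiableOn one_ne_zero).differentiableAt
      (S.op.mem_nhds hx)).hasFDerivAt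
  have hb : HasFDerivAt (fun y => fderiv ℝ u y b) (fderiv ℝ (fderiv ℝ u) x b) x := by
    rw [← fderiv_apply_eq' S.op S.c2 hx]
    exact (((contDiffOn_fderiv_apply S.op S.c2 b).differentiableOn one_ne_zero).differentiableAt
      (S.op.mem_nhds hx)).hasFDerivAt
  have hsin := hd.hasFDerivAt.sin
  have hcos := hd.hasFDerivAt.cos
  have h1 := (ha.mul hsin).sub (hb.mul hcos)
  have h2 : (fun y => fderiv ℝ u y a * Real.sin (θ y) - fderiv ℝ u y b * Real.cos (θ y))
      =ᶠ[𝓝 x] fun _ => 0 := by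
    filter_upwards [hGo.mem_nhds hxG] with y hy
    rw [A.ea y hy.1 hy.2, A.eb y hy.1 hy.2]
    ring
  have h3 : HasFDerivAt (fun y => fderiv ℝ u y a * Real.sin (θ y) -
      fderiv ℝ u y b * Real.cos (θ y)) (0 : V n →L[ℝ] ℝ) x :=
    (hasFDerivAt_const (0:ℝ) x).congr_of_eventuallyEq h2
  have h4 := h1.unique h3
  ext v
  have h5 := congrArg (fun L : V n →L[ℝ] ℝ => L v) h4
  simp only [sub_apply, add_apply, smul_apply, smul_eq_mul, zero_apply, neg_apply] at h5
  have e1 := A.ea x hx hN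
  have e2 := A.eb x hx hN
  have hsq : Real.sqrt (Nf u a b x) ^ 2 = Nf u a b x := Real.sq_sqrt (Nf_nonneg u a b x)
  have hsc := Real.sin_sq_add_cos_sq (θ x)
  show Nf u a b x * fderiv ℝ θ x v = fderiv ℝ u x a * fderiv ℝ (fderiv ℝ u) x b v -
    fderiv ℝ u x b * fderiv ℝ (fderiv ℝ u) x a v
  set s := Real.sin (θ x)
  set k := Real.cos (θ x)
  set r := Real.sqrt (Nf u a b x)
  set t := fderiv ℝ θ x v
  set A1 := fderiv ℝ (fderiv ℝ u) x a v
  set B1 := fderiv ℝ (fderiv ℝ u) x b v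
  rw [e1, e2] at h5 ⊢
  rw [← hsq]
  have h6 : r * t * (s ^ 2 + k ^ 2) = k * B1 - s * A1 := by linear_combination h5
  rw [hsc, mul_one] at h6
  linear_combination r * h6

end Run7.h184
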