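import Mathlib

set_option autoImplicit false

open MeasureTheory Set Filter Topology Metric

namespace Run7.h184

/-- Euclidean space of dimension `n`. -/
abbrev V (n : ℕ) := EuclideanSpace ℝ (Fin n)

variable {n : ℕ}

/-- the standard basis vectors -/
noncomputable def bv (i : Fin n) : V n := EuclideanSpace.single i (1 : ℝ)

/-- scalar product of two linear functionals -/
noncomputable def dp (L M : V n →L[ℝ] ℝ) : ℝ := ∑ i, L (bv i) * M (bv i)

/-- the vector representing a linear functional -/
noncomputable def vec (M : V n →L[ℝ] ℝ) : V n := ∑ i, M (bv i) • bv i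

theorem sum_bv (v : V n) : ∑ i, v i • bv i = v := by
  have h := (EuclideanSpace.basisFun (Fin n) ℝ).sum_repr v
  simpa [bv, EuclideanSpace.basisFun_apply] using h

theorem apply_eq (L : V n →L[ℝ] ℝ) (v : V n) : L v = ∑ i, v i * L (bv i) := by
  conv_lhs => rw [← sum_bv v]
  simp [map_sum]

theorem dp_eq (L M : V n →L[ℝ] ℝ) : dp L M = L (vec M) := by
  simp [dp, vec, map_sum, mul_comm]

theorem dp_comm (L M : V n →L[ℝ] ℝ) : dp L M = dp M L := by
  simp [dp, mul_comm]

theorem dp_add_left (L L' M : V n →L[ℝ] ℝ) : dp (L + L') M = dp L M + dp L' M := by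
  simp [dp, add_mul, Finset.sum_add_distrib]

theorem dp_smul_left (c : ℝ) (L M : V n →L[ℝ] ℝ) : dp (c • L) M = c * dp L M := by
  simp [dp, Finset.mul_sum, mul_assoc]

theorem dp_sub_left (L L' M : V n →L[ℝ] ℝ) : dp (L - L') M = dp L M - dp L' M := by
  simp [dp, sub_mul, Finset.sum_sub_distrib]

theorem dp_add_right (L M M' : V n →L[ℝ] ℝ) : dp L (M + M') = dp L M + dp L M' := by
  rw [dp_comm, dp_add_left, dp_comm M, dp_comm M']

theorem dp_smul_right (c : ℝ) (L M : V n →L[ℝ] ℝ) : dp L (c • M) = c * dp L M := by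
  rw [dp_comm, dp_smul_left, dp_comm]

theorem vec_apply (M : V n →L[ℝ] ℝ) (i : Fin n) : vec M i = M (bv i) := by
  simp [vec, bv, Finset.sum_apply, Pi.single_apply]

theorem inner_vec (M : V n →L[ℝ] ℝ) (v : V n) : inner ℝ (vec M) v = M v := by
  rw [apply_eq M v, PiLp.inner_apply]
  simp [vec_apply]

theorem vec_eq_dual (M : V n →L[ℝ] ℝ) : vec M = (InnerProductSpace.toDual ℝ (V n)).symm M := by
  apply ext_inner_right ℝ
  intro v
  rw [inner_vec, InnerProductSpace.toDual_symm_apply]

theorem norm_vec (M : V n →L[ℝ] ℝ) : ‖vec M‖ = ‖M‖ := by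
  rw [vec_eq_dual]; simp

theorem dp_self (L : V n →L[ℝ] ℝ) : dp L L = ‖L‖ ^ 2 := by
  rw [dp_eq, ← inner_vec, real_inner_self_eq_norm_sq, norm_vec]

theorem abs_dp_le (L M : V n →L[ℝ] ℝ) : |dp L M| ≤ ‖L‖ * ‖M‖ := by
  rw [dp_eq, ← norm_vec M]
  exact L.le_opNorm _

theorem continuous_vec : Continuous (vec : (V n →L[ℝ] ℝ) → V n) := by
  unfold vec
  fun_prop

/-- extension by zero: product of a function continuous on an open set and of a continuous function
with support in that set -/
theorem continuous_mul_of_tsupport {E : Set (V n)} (hE : IsOpen E) {f χ : V n → ℝ}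
    (hf : ContinuousOn f E) (hχ : Continuous χ) (hs : tsupport χ ⊆ E) :
    Continuous fun x => f x * χ x := by
  apply continuous_of_tsupport
  intro x hx
  have hx' : x ∈ E := hs (tsupport_mul_subset_right hx)
  exact (hf.continuousAt (hE.mem_nhds hx')).mul hχ.continuousAt

theorem integrable_mul_of_tsupport {E : Set (V n)} (hE : IsOpen E) {f χ : V n → ℝ}
    (hf : ContinuousOn f E) (hχ : Continuous χ) (hc : HasCompactSupport χ) (hs : tsupport χ ⊆ E) :
    Integrable fun x => f x * χ x :=
  (continuous_mul_of_tsupport hE hf hχ hs).integrable_of_hasCompactSupport hc.mul_left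

theorem tsupport_fderiv_apply_subset' {χ : V n → ℝ} (v : V n) :
    tsupport (fun x => fderiv ℝ χ x v) ⊆ tsupport χ := by
  apply closure_minimal _ (isClosed_tsupport χ)
  intro x hx
  by_contra h
  apply hx
  have : fderiv ℝ χ x = 0 := by
    have := support_fderiv_subset ℝ (f := χ)
    by_contra h'
    exact h (this h')
  simp [this]

/-- integration by parts -/
theorem ibp {E : Set (V n)} (hE : IsOpen E) {f χ : V n → ℝ}
    (hf : ContDiffOn ℝ 1 f E) (hχ : ContDiff ℝ 1 χ) (hc : HasCompactSupport χ)
    (hs : tsupport χ ⊆ E) (v : V n) :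
    ∫ x, f x * fderiv ℝ χ x v = - ∫ x, fderiv ℝ f x v * χ x := by
  have hd : ContinuousOn (fun x => fderiv ℝ f x v) E := by
    have := hf.continuousOn_fderiv_of_isOpen hE le_rfl
    exact this.clm_apply continuousOn_const
  have hχ' : Continuous fun x => fderiv ℝ χ x v :=
    (hχ.continuous_fderiv one_ne_zero).clm_apply continuous_const
  apply integral_mul_fderiv_eq_neg_fderiv_mul_of_integrable
  · exact integrable_mul_of_tsupport hE hd hχ.continuous hc hs
  · refine integrable_mul_of_tsupport hE hf.continuousOn hχ' ?_ ?_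
    · exact hc.fderiv_apply ℝ v
    · exact (tsupport_fderiv_apply_subset' v).trans hs
  · exact integrable_mul_of_tsupport hE hf.continuousOn hχ.continuous hc hs
  · intro x hx
    exact (hf.differentiableOn one_ne_zero).differentiableAt (hE.mem_nhds (hs hx))
  · intro x _
    exact (hχ.differentiable one_ne_zero) x

end Run7.h184
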