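import Pool.Agent.Run7.h184.Weak

set_option autoImplicit false

open MeasureTheory Set Filter Topology Metric

namespace Run7.h184

variable {n : ℕ}

/-- degree-one homogeneous solutions of the one-phase problem -/
structure Sol (E : Set (V n)) (u : V n → ℝ) : Prop where
  op : IsOpen E
  bd : ∀ p ∈ frontier E, p ≠ 0 → ∃ U ∈ nhds p, ∃ f : V n → ℝ,
        ContDiff ℝ 2 f ∧ fderiv ℝ f p ≠ 0 ∧ ∀ x ∈ U, (x ∈ E ↔ 0 < f x)
  cont : Continuous u
  hom : ∀ t : ℝ, 0 < t → ∀ x, u (t • x) = t * u x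
  pos : ∀ x ∈ E, 0 < u x
  zero : ∀ x ∉ E, u x = 0
  c2 : ContDiffOn ℝ 2 u E
  harm : ∀ x ∈ E, ∑ i : Fin n, fderiv ℝ (fderiv ℝ u) x (bv i) (bv i) = 0
  grad : ∀ p ∈ frontier E, p ≠ 0 → ∃ U ∈ nhds p, ∃ g : V n → ℝ,
        ContDiff ℝ 2 g ∧ (∀ x ∈ U ∩ E, g x = u x) ∧ ‖fderiv ℝ g p‖ = 1

theorem frontier_nmem {E : Set (V n)} (hE : IsOpen E) {p : V n} (hp : p ∈ frontier E) : p ∉ E := by
  rw [hE.frontier_eq] at hp
  exact hp.2

theorem frontier_neBot {E : Set (V n)} {p : V n} (hp : p ∈ frontier E) : (𝓝[E] p).NeBot :=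
  mem_closure_iff_nhdsWithin_neBot.1 (frontier_subset_closure hp)

/-- two functions which agree on `U ∩ E` have the same derivatives there -/
theorem fderiv_eq_of_eq {E U : Set (V n)} (hE : IsOpen E) {p : V n} (hU : U ∈ 𝓝 p)
    {g u : V n → ℝ} (h : ∀ x ∈ U ∩ E, g x = u x) :
    ∀ᶠ x in 𝓝[E] p, g =ᶠ[𝓝 x] u := by
  have h1 : ∀ᶠ x in 𝓝[E] p, x ∈ interior U :=
    mem_nhdsWithin_of_mem_nhds (isOpen_interior.mem_nhds (mem_interior_iff_mem_nhds.2 hU))
  filter_upwards [h1, self_mem_nhdsWithin] with x hx hxE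
  filter_upwards [isOpen_interior.mem_nhds hx, hE.mem_nhds hxE] with y hy hyE
  exact h y ⟨interior_subset hy, hyE⟩

theorem tendsto_fderiv {E U : Set (V n)} (hE : IsOpen E) {p : V n} (hU : U ∈ 𝓝 p)
    {g u : V n → ℝ} (hg : ContDiff ℝ 2 g) (h : ∀ x ∈ U ∩ E, g x = u x) :
    Tendsto (fun x => fderiv ℝ u x) (𝓝[E] p) (𝓝 (fderiv ℝ g p)) := by
  have h1 : Tendsto (fun x => fderiv ℝ g x) (𝓝[E] p) (𝓝 (fderiv ℝ g p)) :=
    (hg.continuous_fderiv (by norm_num)).continuousAt.tendsto.mono_left nhdsWithin_le_nhds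
  refine h1.congr' ?_
  filter_upwards [fderiv_eq_of_eq hE hU h] with x hx
  exact hx.fderiv_eq

theorem tendsto_fderiv2 {E U : Set (V n)} (hE : IsOpen E) {p : V n} (hU : U ∈ 𝓝 p)
    {g u : V n → ℝ} (hg : ContDiff ℝ 2 g) (h : ∀ x ∈ U ∩ E, g x = u x) :
    Tendsto (fun x => fderiv ℝ (fderiv ℝ u) x) (𝓝[E] p) (𝓝 (fderiv ℝ (fderiv ℝ g) p)) := by
  have hg' : ContDiff ℝ 1 (fderiv ℝ g) := hg.fderiv_right (by norm_num)
  have h1 : Tendsto (fun x => fderiv ℝ (fderiv ℝ g) x) (𝓝[E] p)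
      (𝓝 (fderiv ℝ (fderiv ℝ g) p)) :=
    (hg'.continuous_fderiv (by norm_num)).continuousAt.tendsto.mono_left nhdsWithin_le_nhds
  refine h1.congr' ?_
  filter_upwards [fderiv_eq_of_eq hE hU h] with x hx
  exact (hx.fderiv).fderiv_eq

theorem Sol.bdry {E : Set (V n)} {u : V n → ℝ} (S : Sol E u) {p : V n} (hp : p ∈ frontier E)
    (hp0 : p ≠ 0) : ∃ U ∈ 𝓝 p, ∃ g : V n → ℝ, ContDiff ℝ 2 g ∧ (∀ x ∈ U ∩ E, g x = u x) ∧
      ‖fderiv ℝ g p‖ = 1 ∧ g p = 0 ∧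
      ∃ κ : ℝ, ∀ v, fderiv ℝ (fderiv ℝ g) p v (vec (fderiv ℝ g p)) = κ * fderiv ℝ g p v := by
  obtain ⟨U1, hU1, f, hf, hfp, hfE⟩ := S.bd p hp hp0
  obtain ⟨U2, hU2, g, hg, hgu, hgp⟩ := S.grad p hp hp0
  have hfd : Continuous (fderiv ℝ f) := hf.continuous_fderiv (by norm_num)
  have hgd : Continuous (fderiv ℝ g) := hg.continuous_fderiv (by norm_num)
  set W : Set (V n) := interior (U1 ∩ U2) ∩ ({x | x ≠ 0} ∩ {x | fderiv ℝ f x ≠ 0}) with hW
  have hWo : IsOpen W := isOpen_interior.inter (isOpen_ne.inter (isOpen_ne_fun hfd continuous_const))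
  have hpW : p ∈ W := ⟨mem_interior_iff_mem_nhds.2 (inter_mem hU1 hU2), hp0, hfp⟩
  have hW1 : ∀ x ∈ W, x ∈ U1 := fun x hx => (interior_subset hx.1).1
  have hW2 : ∀ x ∈ W, x ∈ U2 := fun x hx => (interior_subset hx.1).2
  -- claim 1
  have hfp0 : f p = 0 := by
    apply le_antisymm
    · by_contra h
      exact frontier_nmem S.op hp ((hfE p (hW1 p hpW)).2 (not_le.1 h))
    · by_contra h
      have h' : ∀ᶠ x in 𝓝[E] p, f x < 0 :=
        (hf.continuous.continuousAt.eventually (gt_mem_nhds (not_le.1 h))).filter_mono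
          nhdsWithin_le_nhds
      have h2 : ∀ᶠ x in 𝓝[E] p, x ∈ W := mem_nhdsWithin_of_mem_nhds (hWo.mem_nhds hpW)
      have := frontier_neBot hp
      obtain ⟨x, ⟨hx1, hx2⟩, hx3⟩ := ((h'.and h2).and self_mem_nhdsWithin).exists
      exact lt_asymm hx1 ((hfE x (hW1 x hx2)).1 hx3)
  -- claim 2
  have c2 : ∀ x ∈ W, f x = 0 → x ∈ frontier E := by
    intro x hx hx0
    have hxE : x ∉ E := by
      intro h
      have := (hfE x (hW1 x hx)).1 h
      linarith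
    rw [S.op.frontier_eq]
    refine ⟨?_, hxE⟩
    by_contra hcl
    have h1 : ∀ᶠ y in 𝓝 x, y ∉ E := by
      have : (closure E)ᶜ ∈ 𝓝 x := isClosed_closure.isOpen_compl.mem_nhds hcl
      filter_upwards [this] with y hy hyE
      exact hy (subset_closure hyE)
    have h2 : IsLocalMax f x := by
      filter_upwards [h1, hWo.mem_nhds hx] with y hy hyW
      rw [hx0]
      by_contra h
      exact hy ((hfE y (hW1 y hyW)).2 (not_le.1 h))
    exact hx.2.2 h2.fderiv_eq_zero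
  -- claim 3
  have c3 : ∀ x ∈ W, x ∈ frontier E → g x = 0 := by
    intro x hx hxf
    have := frontier_neBot hxf
    have h1 : Tendsto g (𝓝[E] x) (𝓝 (g x)) :=
      hg.continuous.continuousAt.tendsto.mono_left nhdsWithin_le_nhds
    have h2 : Tendsto u (𝓝[E] x) (𝓝 (u x)) :=
      S.cont.continuousAt.tendsto.mono_left nhdsWithin_le_nhds
    rw [S.zero x (frontier_nmem S.op hxf)] at h2
    refine tendsto_nhds_unique h1 (h2.congr' ?_)
    have h3 : ∀ᶠ y in 𝓝[E] x, y ∈ W := mem_nhdsWithin_of_mem_nhds (hWo.mem_nhds hx)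
    filter_upwards [h3, self_mem_nhdsWithin] with y hy hyE
    exact (hgu y ⟨hW2 y hy, hyE⟩).symm
  -- claim 4
  have c4 : ∀ x ∈ W, x ∈ frontier E → ‖fderiv ℝ g x‖ = 1 := by
    intro x hx hxf
    obtain ⟨U3, hU3, g3, hg3, hgu3, hgp3⟩ := S.grad x hxf hx.2.1
    have := frontier_neBot hxf
    have h1 := tendsto_fderiv S.op (hWo.mem_nhds hx) hg
      (fun y hy => hgu y ⟨hW2 y hy.1, hy.2⟩)
    have h2 := tendsto_fderiv S.op hU3 hg3 hgu3
    rw [tendsto_nhds_unique h1 h2]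
    exact hgp3
  -- the function φ
  set φ : V n → ℝ := fun x => ∑ i, fderiv ℝ g x (bv i) * fderiv ℝ g x (bv i) with hφ
  have hg' : ContDiff ℝ 1 (fderiv ℝ g) := hg.fderiv_right (by norm_num)
  have hφc : ContDiff ℝ 1 φ := by
    apply ContDiff.sum
    intro i _
    exact (hg'.clm_apply contDiff_const).mul (hg'.clm_apply contDiff_const)
  have hφ1 : ∀ x ∈ W, f x = 0 → φ x = 1 := by
    intro x hx hx0
    have : φ x = dp (fderiv ℝ g x) (fderiv ℝ g x) := rfl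
    rw [this, dp_self, c4 x hx (c2 x hx hx0)]
    norm_num
  have hext : IsLocalExtrOn φ {x | f x = f p} p := by
    left
    have : ∀ᶠ x in 𝓝[{x | f x = f p}] p, x ∈ W := mem_nhdsWithin_of_mem_nhds (hWo.mem_nhds hpW)
    filter_upwards [this, self_mem_nhdsWithin] with x hx hxf
    have hxf' : f x = f p := hxf
    rw [hφ1 p hpW hfp0, hφ1 x hx (by rw [hxf', hfp0])]
  have hext2 : IsLocalExtrOn g {x | f x = f p} p := by
    left
    have : ∀ᶠ x in 𝓝[{x | f x = f p}] p, x ∈ W := mem_nhdsWithin_of_mem_nhds (hWo.mem_nhds hpW)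
    filter_upwards [this, self_mem_nhdsWithin] with x hx hxf
    have hxf' : f x = f p := hxf
    rw [c3 p hpW hp, c3 x hx (c2 x hx (by rw [hxf', hfp0]))]
  have sf : HasStrictFDerivAt f (fderiv ℝ f p) p :=
    (hf.contDiffAt.hasStrictFDerivAt (by norm_num))
  have sg : HasStrictFDerivAt g (fderiv ℝ g p) p :=
    (hg.contDiffAt.hasStrictFDerivAt (by norm_num))
  have sφ : HasStrictFDerivAt φ (fderiv ℝ φ p) p :=
    (hφc.contDiffAt.hasStrictFDerivAt (by norm_num))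
  obtain ⟨a, b, hab, h1⟩ := hext.exists_multipliers_of_hasStrictFDerivAt_1d sf sφ
  obtain ⟨a', b', hab', h2⟩ := hext2.exists_multipliers_of_hasStrictFDerivAt_1d sf sg
  have hgne : fderiv ℝ g p ≠ 0 := by
    intro h
    rw [h, norm_zero] at hgp
    norm_num at hgp
  have hb : b ≠ 0 := by
    intro hb
    have ha : a ≠ 0 := by
      intro ha; exact hab (by rw [ha, hb]; rfl)
    rw [hb, zero_smul, add_zero] at h1
    exact hfp ((smul_eq_zero.1 h1).resolve_left ha)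
  have ha' : a' ≠ 0 := by
    intro ha
    have hb' : b' ≠ 0 := by
      intro hb; exact hab' (by rw [ha, hb]; rfl)
    rw [ha, zero_smul, zero_add] at h2
    exact hgne ((smul_eq_zero.1 h2).resolve_left hb')
  have e1 : fderiv ℝ f p = (-(b' / a')) • fderiv ℝ g p := by
    have : a' • fderiv ℝ f p = -(b' • fderiv ℝ g p) := eq_neg_of_add_eq_zero_left h2
    calc fderiv ℝ f p = a'⁻¹ • (a' • fderiv ℝ f p) := by rw [smul_smul, inv_mul_cancel₀ ha', one_smul]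
      _ = _ := by rw [this, smul_neg, smul_smul, neg_smul]; congr 2; field_simp
  have e2 : fderiv ℝ φ p = (-(a / b)) • fderiv ℝ f p := by
    have : b • fderiv ℝ φ p = -(a • fderiv ℝ f p) := eq_neg_of_add_eq_zero_right h1
    calc fderiv ℝ φ p = b⁻¹ • (b • fderiv ℝ φ p) := by rw [smul_smul, inv_mul_cancel₀ hb, one_smul]
      _ = _ := by rw [this, smul_neg, smul_smul, neg_smul]; congr 2; field_simp
  have e3 : ∀ v, fderiv ℝ φ p v = 2 * fderiv ℝ (fderiv ℝ g) p v (vec (fderiv ℝ g p)) := by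
    intro v
    have d1 : HasFDerivAt (fderiv ℝ g) (fderiv ℝ (fderiv ℝ g) p) p :=
      ((hg'.differentiable one_ne_zero) p).hasFDerivAt
    have d2 : ∀ i : Fin n, HasFDerivAt (fun x => fderiv ℝ g x (bv i))
        ((fderiv ℝ (fderiv ℝ g) p).flip (bv i)) p := by
      intro i
      refine (d1.clm_apply (hasFDerivAt_const (bv i) p)).congr_fderiv ?_
      ext v
      simp
    have d3 : HasFDerivAt φ (∑ i, ((fderiv ℝ g p (bv i)) • ((fderiv ℝ (fderiv ℝ g) p).flip (bv i)) +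
        (fderiv ℝ g p (bv i)) • ((fderiv ℝ (fderiv ℝ g) p).flip (bv i)))) p :=
      HasFDerivAt.fun_sum fun i _ => (d2 i).mul (d2 i)
    rw [d3.fderiv]
    simp only [sum_apply, add_apply,
      smul_apply, ContinuousLinearMap.flip_apply, smul_eq_mul, vec, map_sum,
      map_smul]
    rw [Finset.mul_sum]
    exact Finset.sum_congr rfl fun i _ => by ring
  refine ⟨U2, hU2, g, hg, hgu, hgp, c3 p hpW hp, (-(a / b)) * (-(b' / a')) / 2, ?_⟩
  intro v
  have := e3 v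
  rw [e2, e1, smul_smul, smul_apply, smul_eq_mul] at this
  linarith

/-- the Wronskian form of the derivatives in the directions `a` and `b` -/
noncomputable def Wf (u : V n → ℝ) (a b x : V n) : V n →L[ℝ] ℝ :=
  fderiv ℝ u x a • fderiv ℝ (fderiv ℝ u) x b - fderiv ℝ u x b • fderiv ℝ (fderiv ℝ u) x a

theorem tendsto_apply {α : Type*} {l : Filter α} {L : α → V n →L[ℝ] ℝ} {L0 : V n →L[ℝ] ℝ}
    {v : α → V n} {v0 : V n} (hL : Tendsto L l (𝓝 L0)) (hv : Tendsto v l (𝓝 v0)) :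
    Tendsto (fun x => L x (v x)) l (𝓝 (L0 v0)) :=
  ((isBoundedBilinearMap_apply (𝕜 := ℝ) (E := V n) (F := ℝ)).continuous.tendsto (L0, v0)).comp
    (hL.prodMk_nhds hv)

theorem Sol.shell_local {E : Set (V n)} {u : V n → ℝ} (S : Sol E u) {p : V n}
    (hp : p ∈ frontier E) (hp0 : p ≠ 0) (a b : V n) :
    Tendsto (fun x => Wf u a b x (vec (fderiv ℝ u x))) (𝓝[E] p) (𝓝 0) ∧
    Tendsto (fun x => ‖fderiv ℝ u x‖) (𝓝[E] p) (𝓝 1) := by
  obtain ⟨U, hU, g, hg, hgu, hgp, -, κ, hκ⟩ := S.bdry hp hp0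
  have t1 := tendsto_fderiv S.op hU hg hgu
  have t2 := tendsto_fderiv2 S.op hU hg hgu
  refine ⟨?_, by rw [← hgp]; exact t1.norm⟩
  have t1a : ∀ c : V n, Tendsto (fun x => fderiv ℝ u x c) (𝓝[E] p) (𝓝 (fderiv ℝ g p c)) :=
    fun c => tendsto_apply t1 tendsto_const_nhds
  have tv : Tendsto (fun x => vec (fderiv ℝ u x)) (𝓝[E] p) (𝓝 (vec (fderiv ℝ g p))) :=
    (continuous_vec.tendsto _).comp t1
  have t2a : ∀ c : V n, Tendsto (fun x => fderiv ℝ (fderiv ℝ u) x c (vec (fderiv ℝ u x)))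
      (𝓝[E] p) (𝓝 (fderiv ℝ (fderiv ℝ g) p c (vec (fderiv ℝ g p)))) :=
    fun c => tendsto_apply (((ContinuousLinearMap.apply ℝ (V n →L[ℝ] ℝ) c).continuous.tendsto
      _).comp t2) tv
  have := ((t1a a).mul (t2a b)).sub ((t1a b).mul (t2a a))
  rw [hκ, hκ] at this
  have e : fderiv ℝ g p a * (κ * fderiv ℝ g p b) - fderiv ℝ g p b * (κ * fderiv ℝ g p a) = 0 := by
    ring
  rw [e] at this
  exact this

end Run7.h184
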