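import Pool.Agent.Run7.h184.Angle

set_option autoImplicit false
set_option linter.unusedSectionVars false
set_option linter.unusedVariables false

open MeasureTheory Set Filter Topology Metric

namespace Run7.h184

variable {n : ℕ}

/-- cutoff: `0` for `s ≤ 1` and `1` for `s ≥ 2` -/
noncomputable def cut (s : ℝ) : ℝ := Real.smoothTransition (s - 1)

theorem cut_contDiff : ContDiff ℝ 2 cut :=
  (Real.smoothTransition.contDiff (n := 2)).comp (contDiff_id.sub contDiff_const)

theorem cut_zero {s : ℝ} (h : s ≤ 1) : cut s = 0 :=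
  Real.smoothTransition.zero_of_nonpos (by linarith)

theorem cut_one {s : ℝ} (h : 2 ≤ s) : cut s = 1 :=
  Real.smoothTransition.one_of_one_le (by linarith)

theorem cut_nonneg (s : ℝ) : 0 ≤ cut s := Real.smoothTransition.nonneg _

theorem cut_le_one (s : ℝ) : cut s ≤ 1 := Real.smoothTransition.le_one _

theorem cut_mono : Monotone cut := by
  intro s t h
  exact Real.smoothTransition.monotone (by linarith)

theorem cut_deriv_nonneg (s : ℝ) : 0 ≤ deriv cut s := by
  have hd : HasDerivAt cut (deriv cut s) s :=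
    (cut_contDiff.differentiable (by norm_num) s).hasDerivAt
  by_contra h
  push Not at h
  have h1 := hd.tendsto_slope
  have h2 : ∀ᶠ t in 𝓝[≠] s, slope cut s t < 0 := h1.eventually (gt_mem_nhds h)
  obtain ⟨t, ht⟩ := (h2.and self_mem_nhdsWithin).exists
  have h3 : 0 ≤ slope cut s t := by
    rw [slope_def_field]
    rcases lt_or_gt_of_ne (show t ≠ s from ht.2) with h4 | h4
    · have := cut_mono h4.le
      exact div_nonneg_of_nonpos (by linarith) (by linarith)
    · have := cut_mono (le_of_lt h4)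
      exact div_nonneg (by linarith) (by linarith)
  linarith [ht.1]

theorem cut_deriv_zero_left {s : ℝ} (h : s < 1) : deriv cut s = 0 := by
  have : cut =ᶠ[𝓝 s] fun _ => 0 := by
    filter_upwards [gt_mem_nhds h] with t ht
    exact cut_zero (le_of_lt ht)
  rw [this.deriv_eq]
  simp

theorem cut_deriv_zero_right {s : ℝ} (h : 2 < s) : deriv cut s = 0 := by
  have : cut =ᶠ[𝓝 s] fun _ => 1 := by
    filter_upwards [lt_mem_nhds h] with t ht
    exact cut_one (le_of_lt ht)
  rw [this.deriv_eq]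
  simp

theorem cut_deriv_cont : Continuous (deriv cut) := cut_contDiff.continuous_deriv (by norm_num)

theorem cut_deriv_bound : ∃ C, 0 ≤ C ∧ ∀ s, |deriv cut s| ≤ C := by
  obtain ⟨C, hC⟩ := (isCompact_Icc (a := (0:ℝ)) (b := 3)).bddAbove_image
    (f := fun s => |deriv cut s|) (cut_deriv_cont.abs.continuousOn)
  have hC0 : ∀ s ∈ Icc (0:ℝ) 3, |deriv cut s| ≤ C := fun s hs => hC (mem_image_of_mem _ hs)
  refine ⟨C, (abs_nonneg _).trans (hC0 0 (by norm_num)), fun s => ?_⟩
  by_cases h : s ∈ Icc (0:ℝ) 3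
  · exact hC0 s h
  · rw [mem_Icc, not_and_or, not_le, not_le] at h
    rcases h with h | h
    · rw [cut_deriv_zero_left (by linarith), abs_zero]
      exact (abs_nonneg _).trans (hC0 0 (by norm_num))
    · rw [cut_deriv_zero_right (by linarith), abs_zero]
      exact (abs_nonneg _).trans (hC0 0 (by norm_num))

/-- radial cutoffs away from the origin -/
structure Rad (K : Set (V n)) (ζ : V n → ℝ) : Prop where
  compact : IsCompact K
  zero : (0 : V n) ∉ K
  smooth : ContDiff ℝ 1 ζ
  nonneg : ∀ x, 0 ≤ ζ x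
  supp : ∀ x, x ∉ K → ζ x = 0
  rad : ∀ x, ∃ c : ℝ, ∀ v, fderiv ℝ ζ x v = c * inner ℝ x v

theorem exists_rad {x₀ : V n} (h : x₀ ≠ 0) : ∃ K ζ, Rad (n := n) K ζ ∧ ζ x₀ = 1 := by
  have hr : 0 < ‖x₀‖ ^ 2 := by positivity
  set r := ‖x₀‖ ^ 2 with hrdef
  let β : ContDiffBump r := ⟨r / 4, r / 2, by positivity, by linarith⟩
  have hb1 : β.rOut = r / 2 := rfl
  have hin : ∀ x : V n, HasFDerivAt (fun x : V n => ‖x‖ ^ 2) (2 • (innerSL ℝ x)) x := fun x =>
    (hasStrictFDerivAt_norm_sq x).hasFDerivAt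
  refine ⟨{x | ‖x‖ ^ 2 ∈ closedBall r (r / 2)}, fun x => β (‖x‖ ^ 2), ⟨?_, ?_, ?_, ?_, ?_, ?_⟩, ?_⟩
  · apply Metric.isCompact_of_isClosed_isBounded
    · exact isClosed_closedBall.preimage (by fun_prop)
    · apply (isBounded_closedBall (x := (0 : V n)) (r := 1 + 2 * r)).subset
      intro x hx
      rw [mem_closedBall, dist_zero_right]
      have h1 : ‖x‖ ^ 2 ∈ closedBall r (r / 2) := hx
      rw [mem_closedBall, Real.dist_eq, abs_le] at h1
      nlinarith [norm_nonneg x, sq_nonneg (‖x‖ - 1)]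
  · intro h0
    have h1 : ‖(0 : V n)‖ ^ 2 ∈ closedBall r (r / 2) := h0
    rw [mem_closedBall, Real.dist_eq, norm_zero, abs_le] at h1
    norm_num at h1
    linarith
  · exact β.contDiff.comp (contDiff_norm_sq ℝ)
  · intro x
    exact β.nonneg
  · intro x hx
    apply β.zero_of_le_dist
    have h1 : ¬ (‖x‖ ^ 2 ∈ closedBall r (r / 2)) := hx
    rw [mem_closedBall, not_le] at h1
    exact h1.le
  · intro x
    have h0 : HasFDerivAt (fun t : ℝ => β t) (fderiv ℝ β (‖x‖ ^ 2)) (‖x‖ ^ 2) :=
      ((β.contDiff (n := 1)).differentiable one_ne_zero _).hasFDerivAt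
    have h1 : HasFDerivAt (fun x : V n => β (‖x‖ ^ 2))
        ((fderiv ℝ β (‖x‖ ^ 2)).comp (2 • (innerSL ℝ x))) x :=
      HasFDerivAt.comp (g := fun t : ℝ => β t) x h0 (hin x)
    refine ⟨2 * fderiv ℝ β (‖x‖ ^ 2) 1, fun v => ?_⟩
    rw [h1.fderiv]
    have h2 : (2 • (innerSL ℝ x)) v = (2 * inner ℝ x v) • (1:ℝ) := by
      simp
    rw [ContinuousLinearMap.comp_apply, h2, map_smul, smul_eq_mul]
    ring
  · apply β.one_of_mem_closedBall
    simp only [← hrdef]
    exact mem_closedBall_self (by positivity)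

theorem dp_zero_right (L : V n →L[ℝ] ℝ) : dp L 0 = 0 := by simp [dp]

theorem Rad.fderiv_supp {K : Set (V n)} {ζ : V n → ℝ} (R : Rad K ζ) {x : V n} (hx : x ∉ K) :
    fderiv ℝ ζ x = 0 := by
  have : ζ =ᶠ[𝓝 x] fun _ => 0 := by
    filter_upwards [R.compact.isClosed.isOpen_compl.mem_nhds hx] with y hy
    exact R.supp y hy
  rw [this.fderiv_eq]
  simp

theorem dp_inner (L M : V n →L[ℝ] ℝ) (c : ℝ) (x : V n) (h : ∀ v, M v = c * inner ℝ x v) :
    dp L M = c * L x := by
  rw [dp_eq]
  have : vec M = c • x := by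
    apply ext_inner_right ℝ
    intro v
    rw [inner_vec, h, inner_smul_left]
    simp
  rw [this, map_smul, smul_eq_mul]

theorem Sol.mem_iff {E : Set (V n)} {u : V n → ℝ} (S : Sol E u) (x : V n) : x ∈ E ↔ 0 < u x := by
  constructor
  · exact S.pos x
  · intro h
    by_contra h'
    rw [S.zero x h'] at h
    exact lt_irrefl _ h

/-- supports of functions vanishing for `u < ε` -/
theorem Sol.tsupport_sub {E : Set (V n)} {u : V n → ℝ} (S : Sol E u) {K : Set (V n)} {ζ : V n → ℝ}
    (R : Rad K ζ) {ε : ℝ} (hε : 0 < ε) {k : ℝ → ℝ} (hk : ∀ s, s < 1 → k s = 0) :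
    tsupport (fun x => k (u x / ε) * ζ x) ⊆ K ∩ {x | ε ≤ u x} := by
  apply closure_minimal _ (R.compact.isClosed.inter (isClosed_le continuous_const S.cont))
  intro x hx
  rw [Function.mem_support] at hx
  constructor
  · by_contra h
    exact hx (by rw [R.supp x h, mul_zero])
  · by_contra h
    have h' : u x < ε := not_le.1 h
    exact hx (by rw [hk _ ((div_lt_one hε).2 h'), zero_mul])

theorem Sol.sub_E {E : Set (V n)} {u : V n → ℝ} (S : Sol E u) {K : Set (V n)} {ε : ℝ}
    (hε : 0 < ε) : K ∩ {x | ε ≤ u x} ⊆ E := by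
  intro x hx
  rw [S.mem_iff]
  exact lt_of_lt_of_le hε hx.2

/-- the cutoff function `χ` -/
noncomputable def chi (u : V n → ℝ) (ζ : V n → ℝ) (ε : ℝ) (x : V n) : ℝ := cut (u x / ε) * ζ x

/-- the density of the shell -/
noncomputable def she (u : V n → ℝ) (ζ : V n → ℝ) (ε : ℝ) (x : V n) : ℝ :=
  (deriv cut (u x / ε) / ε) * ζ x

section

variable {E : Set (V n)} {u : V n → ℝ} (S : Sol E u) {K : Set (V n)} {ζ : V n → ℝ} (R : Rad K ζ)
  {ε : ℝ} (hε : 0 < ε)

include S R hε

theorem chi_tsupport : tsupport (chi u ζ ε) ⊆ E :=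
  (S.tsupport_sub R hε (k := cut) (fun s hs => cut_zero hs.le)).trans (S.sub_E hε)

theorem chi_compact : HasCompactSupport (chi u ζ ε) := by
  apply HasCompactSupport.of_support_subset_isCompact R.compact
  intro x hx
  by_contra h
  exact hx (by simp [chi, R.supp x h])

theorem she_tsupport : tsupport (she u ζ ε) ⊆ E := by
  refine (S.tsupport_sub R hε (k := fun s => deriv cut s / ε) (fun s hs => ?_)).trans (S.sub_E hε)
  simp [cut_deriv_zero_left hs]

theorem she_compact : HasCompactSupport (she u ζ ε) := by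
  apply HasCompactSupport.of_support_subset_isCompact R.compact
  intro x hx
  by_contra h
  exact hx (by simp [she, R.supp x h])

theorem she_cont : Continuous (she u ζ ε) := by
  unfold she
  exact ((cut_deriv_cont.comp (S.cont.div_const ε)).div_const ε).mul R.smooth.continuous

theorem she_nonneg (x : V n) : 0 ≤ she u ζ ε x :=
  mul_nonneg (div_nonneg (cut_deriv_nonneg _) hε.le) (R.nonneg x)

theorem chi_nonneg (x : V n) : 0 ≤ chi u ζ ε x := mul_nonneg (cut_nonneg _) (R.nonneg x)

theorem chi_contDiff : ContDiff ℝ 1 (chi u ζ ε) := by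
  rw [contDiff_iff_contDiffAt]
  intro x
  by_cases hx : x ∈ E
  · have h1 : ContDiffAt ℝ 1 u x := (S.c2.contDiffAt (S.op.mem_nhds hx)).of_le (by norm_num)
    have h2 : ContDiffAt ℝ 1 (fun y => cut (u y / ε)) x :=
      ((cut_contDiff.of_le (by norm_num)).contDiffAt).comp x (h1.div_const ε)
    exact h2.mul R.smooth.contDiffAt
  · have h1 : (chi u ζ ε) =ᶠ[𝓝 x] fun _ => 0 := by
      have h2 : ∀ᶠ y in 𝓝 x, u y < ε :=
        S.cont.continuousAt.eventually (gt_mem_nhds (by rw [S.zero x hx]; exact hε))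
      filter_upwards [h2] with y hy
      rw [chi, cut_zero ((div_lt_one hε).2 hy).le, zero_mul]
    exact contDiffAt_const.congr_of_eventuallyEq h1

theorem chi_fderiv {x : V n} (hx : x ∈ E) : fderiv ℝ (chi u ζ ε) x =
    she u ζ ε x • fderiv ℝ u x + cut (u x / ε) • fderiv ℝ ζ x := by
  have h1 : HasFDerivAt u (fderiv ℝ u x) x :=
    ((S.c2.differentiableOn (by norm_num)).differentiableAt (S.op.mem_nhds hx)).hasFDerivAt
  have h2 : HasFDerivAt (fun y => u y / ε) (ε⁻¹ • fderiv ℝ u x) x := by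
    simp only [div_eq_mul_inv]
    exact h1.mul_const ε⁻¹
  have h3 : HasDerivAt cut (deriv cut (u x / ε)) (u x / ε) :=
    (cut_contDiff.differentiable (by norm_num) _).hasDerivAt
  have h4 := h3.comp_hasFDerivAt x h2
  have h5 := h4.mul (R.smooth.differentiable one_ne_zero x).hasFDerivAt
  have h6 : fderiv ℝ (chi u ζ ε) x = _ := h5.fderiv
  rw [h6]
  ext v
  simp only [she, add_apply, smul_apply, smul_eq_mul, Function.comp_apply]
  ring

theorem chi_fderiv_out {x : V n} (hx : x ∉ E) : fderiv ℝ (chi u ζ ε) x = 0 := by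
  by_contra h
  exact hx (chi_tsupport S R hε (support_fderiv_subset ℝ h))

theorem she_out {x : V n} (hx : x ∉ E) : she u ζ ε x = 0 := by
  rw [she, S.zero x hx, zero_div, cut_deriv_zero_left (by norm_num)]
  simp

theorem chi_out {x : V n} (hx : x ∉ E) : chi u ζ ε x = 0 := by
  rw [chi, S.zero x hx, zero_div, cut_zero (by norm_num), zero_mul]

/-- the mass of the shells is bounded -/
theorem shell_mass {c ε₀ : ℝ} (hc : ∀ x ∈ K ∩ E, ‖fderiv ℝ u x‖ ≤ c) (hc0 : 0 ≤ c)
    (hs : ∀ x ∈ K ∩ E, u x < ε₀ → 1 / 2 ≤ ‖fderiv ℝ u x‖) (h2 : 2 * ε < ε₀) :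
    ∫ x, she u ζ ε x ≤ 4 * (c * ∫ x, ‖fderiv ℝ ζ x‖) := by
  have hζc : HasCompactSupport (fderiv ℝ ζ) := by
    apply HasCompactSupport.of_support_subset_isCompact R.compact
    intro x hx
    by_contra h
    exact hx (R.fderiv_supp h)
  have hζi : Integrable (fun x => ‖fderiv ℝ ζ x‖) :=
    (R.smooth.continuous_fderiv one_ne_zero).norm.integrable_of_hasCompactSupport hζc.norm
  have hsi : Integrable (she u ζ ε) :=
    (she_cont S R hε).integrable_of_hasCompactSupport (she_compact S R hε)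
  have hsi2 : Integrable (fun x => ‖fderiv ℝ u x‖ ^ 2 * she u ζ ε x) :=
    integrable_mul_of_tsupport S.op (S.contD1.norm.pow 2) (she_cont S R hε)
      (she_compact S R hε) (she_tsupport S R hε)
  have hw := weak_harm S.op S.c2 S.harm (chi_contDiff S R hε) (chi_compact S R hε)
    (chi_tsupport S R hε)
  have hpt : ∀ x, dp (fderiv ℝ u x) (fderiv ℝ (chi u ζ ε) x) =
      ‖fderiv ℝ u x‖ ^ 2 * she u ζ ε x + cut (u x / ε) * dp (fderiv ℝ u x) (fderiv ℝ ζ x) := by
    intro x
    by_cases hx : x ∈ E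
    · rw [chi_fderiv S R hε hx, dp_add_right, dp_smul_right, dp_smul_right, dp_self]
      ring
    · rw [chi_fderiv_out S R hε hx, she_out S R hε hx, S.zero x hx, zero_div,
        cut_zero (by norm_num)]
      simp [dp]
  have hint : Integrable (fun x => dp (fderiv ℝ u x) (fderiv ℝ (chi u ζ ε) x)) := by
    unfold dp
    apply integrable_finsetSum
    intro i _
    refine integrable_mul_of_tsupport S.op (S.contD1.clm_apply continuousOn_const) ?_
      ((chi_compact S R hε).fderiv_apply ℝ _)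
      ((tsupport_fderiv_apply_subset' _).trans (chi_tsupport S R hε))
    exact ((chi_contDiff S R hε).continuous_fderiv one_ne_zero).clm_apply continuous_const
  have hint2 : Integrable (fun x => cut (u x / ε) * dp (fderiv ℝ u x) (fderiv ℝ ζ x)) := by
    have := hint.sub hsi2
    refine this.congr (Eventually.of_forall fun x => ?_)
    simp only [Pi.sub_apply, hpt]
    ring
  have hsum : (∫ x, ‖fderiv ℝ u x‖ ^ 2 * she u ζ ε x) +
      ∫ x, cut (u x / ε) * dp (fderiv ℝ u x) (fderiv ℝ ζ x) = 0 := by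
    rw [← integral_add hsi2 hint2, ← hw]
    congr 1
    ext x
    rw [hpt]
  have hb1 : -(∫ x, cut (u x / ε) * dp (fderiv ℝ u x) (fderiv ℝ ζ x)) ≤
      c * ∫ x, ‖fderiv ℝ ζ x‖ := by
    rw [← integral_neg, ← integral_const_mul]
    apply integral_mono hint2.neg (hζi.const_mul c)
    intro x
    simp only [Pi.neg_apply]
    by_cases hx : x ∈ K ∩ E
    · have h1 : |cut (u x / ε) * dp (fderiv ℝ u x) (fderiv ℝ ζ x)| ≤ c * ‖fderiv ℝ ζ x‖ := by
        rw [abs_mul, abs_of_nonneg (cut_nonneg _)]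
        calc cut (u x / ε) * |dp (fderiv ℝ u x) (fderiv ℝ ζ x)|
            ≤ 1 * (‖fderiv ℝ u x‖ * ‖fderiv ℝ ζ x‖) :=
              mul_le_mul (cut_le_one _) (abs_dp_le _ _) (abs_nonneg _) zero_le_one
          _ ≤ c * ‖fderiv ℝ ζ x‖ := by
              rw [one_mul]
              exact mul_le_mul_of_nonneg_right (hc x hx) (norm_nonneg _)
      exact (neg_le_abs _).trans h1
    · rw [mem_inter_iff, not_and_or] at hx
      rcases hx with hx | hx
      · rw [R.fderiv_supp hx, dp_zero_right]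
        simp
      · rw [S.zero x hx, zero_div, cut_zero (by norm_num), zero_mul, neg_zero]
        positivity
  have hb2 : ∫ x, she u ζ ε x ≤ 4 * ∫ x, ‖fderiv ℝ u x‖ ^ 2 * she u ζ ε x := by
    rw [← integral_const_mul]
    apply integral_mono hsi (hsi2.const_mul 4)
    intro x
    simp only
    by_cases hx : she u ζ ε x = 0
    · rw [hx]; simp
    · have hxE : x ∈ E := by
        by_contra h
        exact hx (she_out S R hε h)
      have hxK : x ∈ K := by
        by_contra h
        exact hx (by rw [she, R.supp x h, mul_zero])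
      have hux : u x < ε₀ := by
        by_contra h
        apply hx
        rw [she, cut_deriv_zero_right, zero_div, zero_mul]
        rw [lt_div_iff₀ hε]
        linarith [not_lt.1 h]
      have h3 := hs x ⟨hxK, hxE⟩ hux
      have h4 := she_nonneg S R hε x
      nlinarith [h3, h4, sq_nonneg (‖fderiv ℝ u x‖ - 1/2)]
  linarith

end

end Run7.h184
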