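import Pool.Agent.Run7.h184.Main

set_option autoImplicit false
set_option linter.unusedSectionVars false
set_option linter.unusedVariables false

open MeasureTheory Set Filter Topology Metric

namespace Run7.h184

variable {n : ℕ}

/-- open half-spaces -/
def HS (v : V n) : Set (V n) := {x | 0 < inner ℝ v x}

theorem isOpen_HS (v : V n) : IsOpen (HS v) :=
  isOpen_lt continuous_const (by fun_prop)

theorem convex_HS (v : V n) : Convex ℝ (HS v) := by
  have := convex_halfSpace_gt (𝕜 := ℝ) (f := fun x : V n => inner ℝ v x)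
    (IsLinearMap.mk (fun x y => inner_add_right v x y) (fun c x => inner_smul_right v x c)) 0
  exact this

theorem const_line {f : ℝ → ℝ} {t₀ ρ : ℝ} (h : ∀ s ∈ ball t₀ ρ, HasDerivAt f 0 s) :
    ∀ s ∈ ball t₀ ρ, f s = f t₀ := by
  intro s hs
  have hρ : 0 < ρ := lt_of_le_of_lt dist_nonneg hs
  apply (convex_ball t₀ ρ).is_const_of_fderivWithin_eq_zero (𝕜 := ℝ)
  · intro x hx
    exact (h x hx).differentiableAt.differentiableWithinAt
  · intro x hx
    rw [fderivWithin_of_isOpen isOpen_ball hx]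
    ext
    simp [(h x hx).deriv]
  · exact hs
  · exact mem_ball_self hρ

theorem Sol.cone {E : Set (V n)} {u : V n → ℝ} (S : Sol E u) {t : ℝ} (ht : 0 < t) {x : V n}
    (hx : x ∈ E) : t • x ∈ E := by
  rw [S.mem_iff, S.hom t ht]
  exact mul_pos ht (S.pos x hx)

theorem Sol.hasFDerivAt {E : Set (V n)} {u : V n → ℝ} (S : Sol E u) {x : V n} (hx : x ∈ E) :
    HasFDerivAt u (fderiv ℝ u x) x :=
  ((S.c2.differentiableOn (by norm_num)).differentiableAt (S.op.mem_nhds hx)).hasFDerivAt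

/-- a sheet of the solution which is invariant under translations is a half-space -/
theorem Sol.sheet {E : Set (V n)} {u : V n → ℝ} (S : Sol E u) {C : Set (V n)} (hCE : C ⊆ E)
    (hCo : IsOpen C) (hne : C.Nonempty) {d : V n} (hd : d ≠ 0)
    (ha : ∀ x ∈ C, ∀ t : ℝ, x + t • d ∈ C ∧ u (x + t • d) = u x)
    (hb : ∀ t : ℝ, 0 < t → ∀ x ∈ C, t • x ∈ C)
    (hc : ∀ v : V n, (∀ x ∈ C, u x = inner ℝ v x) → ∀ y ∈ closure C, 0 < inner ℝ v y → y ∈ C) :
    ∃ v : V n, ‖v‖ = 1 ∧ C = HS v ∧ (∀ x ∈ C, u x = inner ℝ v x) ∧ inner ℝ v d = 0 := by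
  obtain ⟨y₀, hy₀⟩ := hne
  -- the path `s y + d`
  have hpath : ∀ y ∈ C, ∀ s : ℝ, 0 < s → d + s • y ∈ C ∧ u (d + s • y) = s * u y := by
    intro y hy s hs
    have h1 := ha (s • y) (hb s hs y hy) 1
    rw [one_smul, add_comm] at h1
    refine ⟨h1.1, ?_⟩
    rw [h1.2, S.hom s hs]
  have hlim : ∀ y : V n, Tendsto (fun s : ℝ => d + s • y) (𝓝[>] 0) (𝓝 d) := by
    intro y
    have : Tendsto (fun s : ℝ => d + s • y) (𝓝 0) (𝓝 (d + (0:ℝ) • y)) := by
      apply Continuous.tendsto
      fun_prop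
    rw [zero_smul, add_zero] at this
    exact this.mono_left nhdsWithin_le_nhds
  have hud : u d = 0 := by
    have h1 : Tendsto (fun s : ℝ => u (d + s • y₀)) (𝓝[>] 0) (𝓝 (u d)) :=
      (S.cont.tendsto d).comp (hlim y₀)
    have h2 : Tendsto (fun s : ℝ => s * u y₀) (𝓝[>] 0) (𝓝 0) := by
      have : Tendsto (fun s : ℝ => s * u y₀) (𝓝 0) (𝓝 (0 * u y₀)) :=
        (continuous_id.mul continuous_const).tendsto 0
      rw [zero_mul] at this
      exact this.mono_left nhdsWithin_le_nhds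
    refine tendsto_nhds_unique h1 (h2.congr' ?_)
    filter_upwards [self_mem_nhdsWithin] with s hs
    exact (hpath y₀ hy₀ s hs).2.symm
  have hdE : d ∉ E := by
    intro h
    have := S.pos d h
    linarith
  have hdf : d ∈ frontier E := by
    rw [S.op.frontier_eq]
    refine ⟨?_, hdE⟩
    apply mem_closure_of_tendsto (hlim y₀)
    filter_upwards [self_mem_nhdsWithin] with s hs
    exact hCE (hpath y₀ hy₀ s hs).1
  obtain ⟨U, hU, g, hg, hgu, hgd, hgd0, -⟩ := S.bdry hdf hd
  set v := vec (fderiv ℝ g d) with hv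
  have hv1 : ‖v‖ = 1 := by rw [hv, norm_vec, hgd]
  have hlin : ∀ y ∈ C, u y = inner ℝ v y := by
    intro y hy
    rw [hv, inner_vec]
    have h1 : HasDerivAt (fun s : ℝ => d + s • y) y 0 := by
      simpa using ((hasDerivAt_id (0:ℝ)).smul_const y).const_add d
    have h2 : HasFDerivAt g (fderiv ℝ g d) (d + (0:ℝ) • y) := by
      rw [zero_smul, add_zero]
      exact (hg.differentiable (by norm_num) d).hasFDerivAt
    have h3 : HasDerivAt (fun s : ℝ => g (d + s • y)) (fderiv ℝ g d y) 0 :=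
      h2.comp_hasDerivAt (0:ℝ) h1
    have h4 := h3.tendsto_slope_zero_right
    simp only [zero_add, zero_smul, add_zero, hgd0, sub_zero, smul_eq_mul] at h4
    have h5 : ∀ᶠ s in 𝓝[>] (0:ℝ), s⁻¹ * g (d + s • y) = u y := by
      have h6 : ∀ᶠ s in 𝓝[>] (0:ℝ), d + s • y ∈ U := (hlim y).eventually hU
      filter_upwards [h6, self_mem_nhdsWithin] with s hs hs0
      have h7 := hpath y hy s hs0
      rw [hgu _ ⟨hs, hCE h7.1⟩, h7.2, ← mul_assoc, inv_mul_cancel₀ (ne_of_gt hs0), one_mul]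
    exact tendsto_nhds_unique (tendsto_const_nhds.congr' (h5.mono fun s hs => hs.symm)) h4
  have hsub : C ⊆ HS v := by
    intro x hx
    have h1 : 0 < u x := S.pos x (hCE hx)
    rw [hlin x hx] at h1
    exact h1
  have hsup : HS v ⊆ C := by
    apply (convex_HS v).isPreconnected.subset_of_closure_inter_subset hCo
    · exact ⟨y₀, hsub hy₀, hy₀⟩
    · rintro y ⟨h1, h2⟩
      exact hc v hlin y h1 h2
  refine ⟨v, hv1, Subset.antisymm hsub hsup, hlin, ?_⟩
  have h1 := ha y₀ hy₀ 1
  have h2 := hlin _ h1.1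
  rw [h1.2, hlin y₀ hy₀, inner_add_right, one_smul] at h2
  linarith

/-- the translation invariance of a sheet on which a directional derivative vanishes -/
theorem Sol.trans_inv {E : Set (V n)} {u : V n → ℝ} (S : Sol E u) {C : Set (V n)} (hCE : C ⊆ E)
    (hCo : IsOpen C) {d : V n} (hd : ∀ x ∈ C, fderiv ℝ u x d = 0)
    (hcl : ∀ x ∈ closure C, x ∈ E → (∃ y ∈ C, ∀ c, fderiv ℝ u x c = fderiv ℝ u y c) → x ∈ C) :
    ∀ x ∈ C, ∀ t : ℝ, x + t • d ∈ C ∧ u (x + t • d) = u x := by
  intro x hx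
  have hd2 : ∀ y ∈ C, ∀ c, fderiv ℝ (fderiv ℝ u) y d c = 0 := by
    intro y hy c
    rw [sndSymm S.op S.c2 (hCE hy), ← fderiv_apply_eq S.op S.c2 (hCE hy)]
    have h1 : (fun z => fderiv ℝ u z d) =ᶠ[𝓝 y] fun _ => 0 := by
      filter_upwards [hCo.mem_nhds hy] with z hz
      exact hd z hz
    rw [h1.fderiv_eq]
    simp
  set T : Set ℝ := {t | x + t • d ∈ C ∧ u (x + t • d) = u x ∧
    ∀ c, fderiv ℝ u (x + t • d) c = fderiv ℝ u x c} with hT
  have hline : Continuous fun t : ℝ => x + t • d := by fun_prop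
  have hderiv : ∀ s : ℝ, HasDerivAt (fun t : ℝ => x + t • d) d s := by
    intro s
    simpa using ((hasDerivAt_id s).smul_const d).const_add x
  have hopen : IsOpen T := by
    rw [Metric.isOpen_iff]
    intro t₀ ht₀
    have h1 : ∀ᶠ t in 𝓝 t₀, x + t • d ∈ C := hline.continuousAt.eventually (hCo.mem_nhds ht₀.1)
    obtain ⟨ρ, hρ, hb⟩ := Metric.eventually_nhds_iff_ball.1 h1
    refine ⟨ρ, hρ, fun t ht => ⟨hb t ht, ?_, ?_⟩⟩
    · rw [← ht₀.2.1]
      refine const_line (f := fun t : ℝ => u (x + t • d)) (fun s hs => ?_) t ht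
      have h2 := (S.hasFDerivAt (hCE (hb s hs))).comp_hasDerivAt s (hderiv s)
      rw [hd _ (hb s hs)] at h2
      exact h2
    · intro c
      rw [← ht₀.2.2 c]
      refine const_line (f := fun t : ℝ => fderiv ℝ u (x + t • d) c) (fun s hs => ?_) t ht
      have h3 : HasFDerivAt (fun y => fderiv ℝ u y c) (fderiv ℝ (fderiv ℝ u) (x + s • d) c)
          (x + s • d) := by
        rw [← fderiv_apply_eq' S.op S.c2 (hCE (hb s hs))]
        exact (((contDiffOn_fderiv_apply S.op S.c2 c).differentiableOn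
          one_ne_zero).differentiableAt (S.op.mem_nhds (hCE (hb s hs)))).hasFDerivAt
      have h2 := h3.comp_hasDerivAt s (hderiv s)
      rw [sndSymm S.op S.c2 (hCE (hb s hs)), hd2 _ (hb s hs)] at h2
      exact h2
  have hclosed : IsClosed T := by
    apply isClosed_of_closure_subset
    intro t ht
    have hne : (𝓝[T] t).NeBot := mem_closure_iff_nhdsWithin_neBot.1 ht
    have hlt : Tendsto (fun s : ℝ => x + s • d) (𝓝[T] t) (𝓝 (x + t • d)) :=
      hline.continuousAt.tendsto.mono_left nhdsWithin_le_nhds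
    have h1 : u (x + t • d) = u x := by
      have h2 := (S.cont.tendsto _).comp hlt
      refine tendsto_nhds_unique h2 (tendsto_const_nhds.congr' ?_)
      filter_upwards [self_mem_nhdsWithin] with s hs
      exact hs.2.1.symm
    have h3 : x + t • d ∈ E := by
      rw [S.mem_iff, h1]
      exact S.pos x (hCE hx)
    have h4 : ∀ c, fderiv ℝ u (x + t • d) c = fderiv ℝ u x c := by
      intro c
      have h5 : ContinuousAt (fun y => fderiv ℝ u y c) (x + t • d) :=
        (contDiffOn_fderiv_apply S.op S.c2 c).continuousOn.continuousAt (S.op.mem_nhds h3)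
      refine tendsto_nhds_unique (h5.tendsto.comp hlt) (tendsto_const_nhds.congr' ?_)
      filter_upwards [self_mem_nhdsWithin] with s hs
      exact (hs.2.2 c).symm
    have h6 : x + t • d ∈ closure C := by
      apply mem_closure_of_tendsto hlt
      filter_upwards [self_mem_nhdsWithin] with s hs
      exact hs.1
    exact ⟨hcl _ h6 h3 ⟨x, hx, h4⟩, h1, h4⟩
  have hne : T.Nonempty := ⟨0, by simp [hT, hx]⟩
  have huniv : T = univ := IsClopen.eq_univ ⟨hclosed, hopen⟩ hne
  intro t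
  have : t ∈ T := by rw [huniv]; trivial
  exact ⟨this.1, this.2.1⟩

/-- derivatives on a sheet where the solution is linear -/
theorem Sol.lin_deriv {E : Set (V n)} {u : V n → ℝ} (S : Sol E u) {C : Set (V n)} (hCE : C ⊆ E)
    (hCo : IsOpen C) {v : V n} (hv : ∀ x ∈ C, u x = inner ℝ v x) :
    ∀ x ∈ closure C, x ∈ E → ∀ c, fderiv ℝ u x c = inner ℝ v c := by
  have h1 : ∀ x ∈ C, ∀ c, fderiv ℝ u x c = inner ℝ v c := by
    intro x hx c
    have h2 : u =ᶠ[𝓝 x] fun y => innerSL ℝ v y := by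
      filter_upwards [hCo.mem_nhds hx] with y hy
      rw [hv y hy]; rfl
    rw [h2.fderiv_eq, (innerSL ℝ v).fderiv]
    rfl
  intro x hx hxE c
  have hne : (𝓝[C] x).NeBot := mem_closure_iff_nhdsWithin_neBot.1 hx
  have h5 : ContinuousAt (fun y => fderiv ℝ u y c) x :=
    (contDiffOn_fderiv_apply S.op S.c2 c).continuousOn.continuousAt (S.op.mem_nhds hxE)
  have h6 : Tendsto (fun y => fderiv ℝ u y c) (𝓝[C] x) (𝓝 (fderiv ℝ u x c)) :=
    h5.tendsto.mono_left nhdsWithin_le_nhds
  refine tendsto_nhds_unique h6 (tendsto_const_nhds.congr' ?_)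
  filter_upwards [self_mem_nhdsWithin] with s hs
  exact (h1 s hs c).symm

theorem Sol.deriv_smul {E : Set (V n)} {u : V n → ℝ} (S : Sol E u) {x : V n} (hx : x ∈ E)
    {t : ℝ} (ht : 0 < t) : fderiv ℝ u (t • x) = fderiv ℝ u x := by
  have h1 : HasFDerivAt u (fderiv ℝ u (t • x)) (t • x) := S.hasFDerivAt (S.cone ht hx)
  have h2 : HasFDerivAt (fun y : V n => t • y) (t • ContinuousLinearMap.id ℝ (V n)) x :=
    (hasFDerivAt_id x).const_smul t
  have h3 : HasFDerivAt (fun y => u (t • y)) ((fderiv ℝ u (t • x)).comp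
    (t • ContinuousLinearMap.id ℝ (V n))) x := h1.comp x h2
  have h4 : HasFDerivAt (fun y => t * u y) (t • fderiv ℝ u x) x :=
    (S.hasFDerivAt hx).const_mul t
  have h5 : (fun y => u (t • y)) = fun y => t * u y := by
    ext y; exact S.hom t ht y
  rw [h5] at h3
  have h6 := h3.unique h4
  ext v
  have h7 := congrArg (fun L : V n →L[ℝ] ℝ => L v) h6
  simp only [ContinuousLinearMap.comp_apply, smul_apply, ContinuousLinearMap.id_apply, map_smul,
    smul_eq_mul] at h7
  exact mul_left_cancel₀ ht.ne' h7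

/-- sheets where the argument is defined -/
theorem Sol.sheet_arg {E : Set (V n)} {u : V n → ℝ} (S : Sol E u) {a b : V n}
    (hab : LinearIndependent ℝ ![a, b]) {θ : V n → ℝ} {B : ℝ}
    (A : Arg E u a b θ B) {x₀ : V n} (hx₀ : x₀ ∈ E) (hN₀ : Nf u a b x₀ ≠ 0) :
    ∃ v d : V n, ‖v‖ = 1 ∧ d ≠ 0 ∧ inner ℝ v d = 0 ∧ x₀ ∈ HS v ∧ HS v ⊆ E ∧
      ∀ x ∈ HS v, u x = inner ℝ v x := by
  set θ₀ := θ x₀ with hθ₀
  set d : V n := (-Real.sin θ₀) • a + Real.cos θ₀ • b with hd
  set C : Set (V n) := {x | (x ∈ E ∧ Nf u a b x ≠ 0) ∧ θ x = θ₀} with hC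
  have hGo := S.isOpen_G a b
  have hDθ : ∀ x ∈ {x | x ∈ E ∧ Nf u a b x ≠ 0}, fderiv ℝ θ x = 0 := by
    intro x hx
    have h1 := A.fderiv_eq S hx.1 hx.2
    rw [S.W_zero A hx.1 hx.2] at h1
    exact (smul_eq_zero.1 h1).resolve_left hx.2
  have hloc : ∀ x ∈ {x | x ∈ E ∧ Nf u a b x ≠ 0}, ∀ᶠ y in 𝓝 x, θ y = θ x := by
    intro x hx
    obtain ⟨r, hr, hb⟩ := Metric.isOpen_iff.1 hGo x hx
    filter_upwards [ball_mem_nhds x hr] with y hy
    apply (convex_ball x r).is_const_of_fderivWithin_eq_zero (𝕜 := ℝ)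
    · intro z hz
      exact ((A.contDiffAt S (hb hz).1 (hb hz).2).differentiableAt
        one_ne_zero).differentiableWithinAt
    · intro z hz
      rw [fderivWithin_of_isOpen isOpen_ball hz]
      exact hDθ z (hb hz)
    · exact hy
    · exact mem_ball_self hr
  have hCE : C ⊆ E := fun x hx => hx.1.1
  have hCo : IsOpen C := by
    rw [isOpen_iff_mem_nhds]
    intro x hx
    filter_upwards [hGo.mem_nhds hx.1, hloc x hx.1] with y hy hy2
    exact ⟨hy, by rw [hy2]; exact hx.2⟩
  have hθcont : ∀ x ∈ {x | x ∈ E ∧ Nf u a b x ≠ 0}, ContinuousAt θ x := fun x hx =>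
    (A.contDiffAt S hx.1 hx.2).continuousAt
  have hx₀C : x₀ ∈ C := ⟨⟨hx₀, hN₀⟩, rfl⟩
  have hNeq : ∀ x y, (∀ c, fderiv ℝ u x c = fderiv ℝ u y c) → Nf u a b x = Nf u a b y := by
    intro x y h
    unfold Nf
    rw [h, h]
  have hcl0 : ∀ x ∈ closure C, x ∈ E → Nf u a b x ≠ 0 → x ∈ C := by
    intro x hx hxE hN
    refine ⟨⟨hxE, hN⟩, ?_⟩
    have hne : (𝓝[C] x).NeBot := mem_closure_iff_nhdsWithin_neBot.1 hx
    have h6 : Tendsto θ (𝓝[C] x) (𝓝 (θ x)) :=
      (hθcont x ⟨hxE, hN⟩).tendsto.mono_left nhdsWithin_le_nhds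
    refine tendsto_nhds_unique h6 (tendsto_const_nhds.congr' ?_)
    filter_upwards [self_mem_nhdsWithin] with s hs
    exact hs.2.symm
  have hdd : ∀ x ∈ C, fderiv ℝ u x d = 0 := by
    intro x hx
    rw [hd, map_add, map_smul, map_smul, A.ea x hx.1.1 hx.1.2, A.eb x hx.1.1 hx.1.2, hx.2,
      smul_eq_mul, smul_eq_mul]
    ring
  have hd0 : d ≠ 0 := by
    intro h
    have h1 := LinearIndependent.pair_iff.1 hab (-Real.sin θ₀) (Real.cos θ₀) h
    have h2 := Real.sin_sq_add_cos_sq θ₀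
    rw [neg_eq_zero.1 h1.1, h1.2] at h2
    norm_num at h2
  have htr := S.trans_inv hCE hCo hdd (fun x hx hxE ⟨y, hy, he⟩ =>
    hcl0 x hx hxE (by rw [hNeq x y he]; exact hy.1.2))
  have hcone : ∀ t : ℝ, 0 < t → ∀ x ∈ C, t • x ∈ C := by
    intro t ht x hx
    have hG : ∀ s : ℝ, 0 < s → s • x ∈ {x | x ∈ E ∧ Nf u a b x ≠ 0} := by
      intro s hs
      refine ⟨S.cone hs hx.1.1, ?_⟩
      have : Nf u a b (s • x) = Nf u a b x := by
        unfold Nf
        rw [S.deriv_smul hx.1.1 hs]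
      rw [this]
      exact hx.1.2
    refine ⟨hG t ht, ?_⟩
    rw [← hx.2]
    have hder : ∀ s : ℝ, 0 < s → HasDerivAt (fun s : ℝ => θ (s • x)) 0 s := by
      intro s hs
      have h1 : HasFDerivAt θ (0 : V n →L[ℝ] ℝ) (s • x) := by
        rw [← hDθ _ (hG s hs)]
        exact ((A.contDiffAt S (hG s hs).1 (hG s hs).2).differentiableAt
          one_ne_zero).hasFDerivAt
      have h2 : HasDerivAt (fun s : ℝ => s • x) x s := by
        simpa using (hasDerivAt_id s).smul_const x
      have h3 := h1.comp_hasDerivAt s h2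
      rw [zero_apply] at h3
      exact h3
    have h3 : (fun s : ℝ => θ (s • x)) t = (fun s : ℝ => θ (s • x)) 1 := by
      apply (convex_Ioi (0:ℝ)).is_const_of_fderivWithin_eq_zero (𝕜 := ℝ)
        (f := fun s : ℝ => θ (s • x))
      · intro s hs
        exact (hder s hs).differentiableAt.differentiableWithinAt
      · intro s hs
        rw [fderivWithin_of_isOpen isOpen_Ioi hs]
        ext
        simp [(hder s hs).deriv]
      · exact ht
      · show (0:ℝ) < 1
        norm_num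
    simpa using h3
  have hlast : ∀ v : V n, (∀ x ∈ C, u x = inner ℝ v x) → ∀ y ∈ closure C,
      0 < inner ℝ v y → y ∈ C := by
    intro v hv y hy hvy
    have h1 : u y = inner ℝ v y := by
      have hne : (𝓝[C] y).NeBot := mem_closure_iff_nhdsWithin_neBot.1 hy
      have h2 : Tendsto u (𝓝[C] y) (𝓝 (u y)) := (S.cont.tendsto y).mono_left nhdsWithin_le_nhds
      have h3 : Tendsto (fun x : V n => inner ℝ v x) (𝓝[C] y) (𝓝 (inner ℝ v y)) :=
        (Continuous.tendsto (by fun_prop) y).mono_left nhdsWithin_le_nhds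
      refine tendsto_nhds_unique h2 (h3.congr' ?_)
      filter_upwards [self_mem_nhdsWithin] with s hs
      exact (hv s hs).symm
    have hyE : y ∈ E := by rw [S.mem_iff, h1]; exact hvy
    apply hcl0 y hy hyE
    have h4 := S.lin_deriv hCE hCo hv
    rw [hNeq y x₀ (fun c => by rw [h4 y hy hyE, h4 x₀ (subset_closure hx₀C) hx₀])]
    exact hN₀
  obtain ⟨v, hv1, hCv, hlin, hvd⟩ := S.sheet hCE hCo ⟨x₀, hx₀C⟩ hd0 htr hcone hlast
  refine ⟨v, d, hv1, hd0, hvd, ?_, ?_, ?_⟩
  · rw [← hCv]; exact hx₀C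
  · rw [← hCv]; exact hCE
  · rw [← hCv]; exact hlin

/-- sheets where the projected gradient vanishes -/
theorem Sol.sheet_zero {E : Set (V n)} {u : V n → ℝ} (S : Sol E u) {a : V n} (ha : a ≠ 0)
    {C : Set (V n)} (hCE : C ⊆ E) (hCo : IsOpen C) (hne : C.Nonempty)
    (hcl : ∀ x ∈ closure C, x ∈ E → x ∈ C) (hd : ∀ x ∈ C, fderiv ℝ u x a = 0)
    (hcone : ∀ t : ℝ, 0 < t → ∀ x ∈ C, t • x ∈ C) :
    ∃ v : V n, ‖v‖ = 1 ∧ C = HS v ∧ (∀ x ∈ C, u x = inner ℝ v x) ∧ inner ℝ v a = 0 := by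
  apply S.sheet hCE hCo hne ha
  · exact S.trans_inv hCE hCo hd (fun x hx hxE _ => hcl x hx hxE)
  · exact hcone
  · intro v hv y hy hvy
    have h1 : u y = inner ℝ v y := by
      have hne : (𝓝[C] y).NeBot := mem_closure_iff_nhdsWithin_neBot.1 hy
      have h2 : Tendsto u (𝓝[C] y) (𝓝 (u y)) := (S.cont.tendsto y).mono_left nhdsWithin_le_nhds
      have h3 : Tendsto (fun x : V n => inner ℝ v x) (𝓝[C] y) (𝓝 (inner ℝ v y)) :=
        (Continuous.tendsto (by fun_prop) y).mono_left nhdsWithin_le_nhds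
      refine tendsto_nhds_unique h2 (h3.congr' ?_)
      filter_upwards [self_mem_nhdsWithin] with s hs
      exact (hv s hs).symm
    exact hcl y hy (by rw [S.mem_iff, h1]; exact hvy)

/-- two opposite half-spaces are impossible -/
theorem Sol.no_two {E : Set (V n)} {u : V n → ℝ} (S : Sol E u) {v d : V n}
    (hd : d ≠ 0) (hvd : inner ℝ v d = 0) (hv : ‖v‖ = 1) (h1 : HS v ⊆ E) (h2 : HS (-v) ⊆ E)
    (h3 : ∀ x, inner ℝ v x = 0 → x ∉ E) : False := by
  have hdE : d ∉ E := h3 d hvd
  have hlim : ∀ y : V n, Tendsto (fun s : ℝ => y + s • v) (𝓝[>] 0) (𝓝 y) := by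
    intro y
    have : Tendsto (fun s : ℝ => y + s • v) (𝓝 0) (𝓝 (y + (0:ℝ) • v)) := by
      apply Continuous.tendsto
      fun_prop
    rw [zero_smul, add_zero] at this
    exact this.mono_left nhdsWithin_le_nhds
  have hin : ∀ y : V n, inner ℝ v y = 0 → ∀ s : ℝ, 0 < s → y + s • v ∈ E := by
    intro y hy s hs
    apply h1
    show 0 < inner ℝ v (y + s • v)
    rw [inner_add_right, inner_smul_right, real_inner_self_eq_norm_sq, hv, hy]
    simpa using hs
  have hcl : ∀ y : V n, inner ℝ v y = 0 → y ∈ closure E := by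
    intro y hy
    apply mem_closure_of_tendsto (hlim y)
    filter_upwards [self_mem_nhdsWithin] with s hs
    exact hin y hy s hs
  have hdf : d ∈ frontier E := by
    rw [S.op.frontier_eq]
    exact ⟨hcl d hvd, hdE⟩
  obtain ⟨U, hU, f, hf, hfd, hfE⟩ := S.bd d hdf hd
  have hnn : ∀ᶠ x in 𝓝 d, 0 ≤ f x := by
    filter_upwards [isOpen_interior.mem_nhds (mem_interior_iff_mem_nhds.2 hU)] with x hx
    have hxU := interior_subset hx
    rcases lt_trichotomy (inner ℝ v x) 0 with h | h | h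
    · have : x ∈ E := h2 (by show 0 < inner ℝ (-v) x; rw [inner_neg_left]; linarith)
      exact ((hfE x hxU).1 this).le
    · have h4 : Tendsto (fun s : ℝ => f (x + s • v)) (𝓝[>] 0) (𝓝 (f x)) :=
        (hf.continuous.tendsto x).comp (hlim x)
      apply ge_of_tendsto h4
      have h5 : ∀ᶠ s in 𝓝[>] (0:ℝ), x + s • v ∈ interior U :=
        (hlim x).eventually (isOpen_interior.mem_nhds hx)
      filter_upwards [h5, self_mem_nhdsWithin] with s hs hs0
      exact ((hfE _ (interior_subset hs)).1 (hin x h s hs0)).le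
    · exact ((hfE x hxU).1 (h1 h)).le
  have hfd0 : f d = 0 := by
    apply le_antisymm
    · by_contra h
      exact hdE ((hfE d (mem_of_mem_nhds hU)).2 (not_le.1 h))
    · exact hnn.self_of_nhds
  have hmin : IsLocalMin f d := by
    filter_upwards [hnn] with x hx
    rw [hfd0]; exact hx
  exact hfd hmin.fderiv_eq_zero

theorem eq_neg_of_disjoint {v w : V n} (hv : ‖v‖ = 1) (hw : ‖w‖ = 1)
    (h : Disjoint (HS v) (HS w)) : w = -v := by
  by_contra hne
  have h0 : w + v ≠ 0 := fun h' => hne (eq_neg_of_add_eq_zero_left h')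
  have h1 : 0 < ‖w + v‖ ^ 2 := by
    have := norm_pos_iff.2 h0
    positivity
  rw [norm_add_sq_real, hv, hw] at h1
  have h2 : w + v ∈ HS v := by
    show 0 < inner ℝ v (w + v)
    rw [inner_add_right, real_inner_self_eq_norm_sq, hv, real_inner_comm]
    linarith
  have h3 : w + v ∈ HS w := by
    show 0 < inner ℝ w (w + v)
    rw [inner_add_right, real_inner_self_eq_norm_sq, hw]
    linarith
  exact Set.disjoint_left.1 h h2 h3

/-- **Rigidity.** -/
theorem Sol.rigid {E : Set (V n)} {u : V n → ℝ} (S : Sol E u) (hne : E.Nonempty) {a b : V n}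
    (hab : LinearIndependent ℝ ![a, b]) {θ : V n → ℝ} {B : ℝ} (A : Arg E u a b θ B) :
    ∃ v : V n, ‖v‖ = 1 ∧ ∀ x, u x = max (inner ℝ x v) 0 := by
  have ha0 : a ≠ 0 := by
    have := hab.ne_zero 0
    simpa using this
  -- it is enough to find a half-space which contains E
  suffices h : ∃ v : V n, ‖v‖ = 1 ∧ E = HS v ∧ ∀ x ∈ E, u x = inner ℝ v x by
    obtain ⟨v, hv, hE, hl⟩ := h
    refine ⟨v, hv, fun x => ?_⟩
    rw [real_inner_comm]
    by_cases hx : x ∈ E
    · rw [hl x hx, max_eq_left]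
      have := S.pos x hx
      rw [hl x hx] at this
      exact this.le
    · rw [S.zero x hx, max_eq_right]
      rw [hE] at hx
      exact not_lt.1 hx
  by_cases hN : ∃ x₀ ∈ E, Nf u a b x₀ ≠ 0
  swap
  · push Not at hN
    obtain ⟨v, hv, hE, hl, -⟩ := S.sheet_zero ha0 subset_rfl S.op hne (fun x _ hx => hx)
      (fun x hx => by
        have h1 := hN x hx
        unfold Nf at h1
        nlinarith [sq_nonneg (fderiv ℝ u x a), sq_nonneg (fderiv ℝ u x b)])
      (fun t ht x hx => S.cone ht hx)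
    exact ⟨v, hv, hE, hl⟩
  obtain ⟨x₀, hx₀, hN₀⟩ := hN
  obtain ⟨v, d, hv, hd, hvd, hx₀v, hvE, hvl⟩ := S.sheet_arg hab A hx₀ hN₀
  refine ⟨v, hv, ?_⟩
  -- on the hyperplane the solution vanishes
  have hplane : ∀ x, inner ℝ v x = 0 → x ∉ E := by
    intro x hx hxE
    have hlim : Tendsto (fun s : ℝ => x + s • v) (𝓝[>] 0) (𝓝 x) := by
      have : Tendsto (fun s : ℝ => x + s • v) (𝓝 0) (𝓝 (x + (0:ℝ) • v)) := by
        apply Continuous.tendsto
        fun_prop
      rw [zero_smul, add_zero] at this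
      exact this.mono_left nhdsWithin_le_nhds
    have h1 : Tendsto (fun s : ℝ => u (x + s • v)) (𝓝[>] 0) (𝓝 (u x)) :=
      (S.cont.tendsto x).comp hlim
    have h2 : Tendsto (fun s : ℝ => s) (𝓝[>] 0) (𝓝 (0:ℝ)) :=
      tendsto_id.mono_left nhdsWithin_le_nhds
    have h3 : u x = 0 := by
      refine tendsto_nhds_unique h1 (h2.congr' ?_)
      filter_upwards [self_mem_nhdsWithin] with s hs
      have h4 : inner ℝ v (x + s • v) = s := by
        rw [inner_add_right, inner_smul_right, real_inner_self_eq_norm_sq, hv, hx]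
        simp
      rw [hvl (x + s • v) (by show 0 < inner ℝ v (x + s • v); rw [h4]; exact hs), h4]
    exact absurd (S.pos x hxE) (by rw [h3]; exact lt_irrefl _)
  suffices hE : E = HS v by
    exact ⟨hE, fun x hx => hvl x (by rw [← hE]; exact hx)⟩
  by_contra hne'
  -- the other part
  set E' : Set (V n) := E ∩ HS (-v) with hE'
  have hE'ne : E'.Nonempty := by
    by_contra h
    apply hne'
    apply Subset.antisymm _ hvE
    intro x hx
    rcases lt_trichotomy (inner ℝ v x) 0 with h1 | h1 | h1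
    · exact absurd ⟨x, hx, by show 0 < inner ℝ (-v) x; rw [inner_neg_left]; linarith⟩ h
    · exact absurd hx (hplane x h1)
    · exact h1
  have hopp : HS (-v) ⊆ E → False := fun h => S.no_two hd hvd hv hvE h hplane
  by_cases hN' : ∃ y ∈ E', Nf u a b y ≠ 0
  · obtain ⟨y, hy, hyN⟩ := hN'
    obtain ⟨w, d', hw, hd', hwd, hyw, hwE, hwl⟩ := S.sheet_arg hab A hy.1 hyN
    have hdis : Disjoint (HS v) (HS w) := by
      rw [Set.disjoint_left]
      intro z hz hzw
      -- the two linear functions agree near z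
      have e1 : ∀ c, fderiv ℝ u z c = inner ℝ v c := S.lin_deriv hvE (isOpen_HS v) hvl z
        (subset_closure hz) (hvE hz)
      have e2 : ∀ c, fderiv ℝ u z c = inner ℝ w c := S.lin_deriv hwE (isOpen_HS w) hwl z
        (subset_closure hzw) (hwE hzw)
      have e3 : v = w := by
        apply ext_inner_right ℝ
        intro c
        rw [← e1, e2]
      have h5 : 0 < inner ℝ (-v) y := hy.2
      have h6 : 0 < inner ℝ w y := hyw
      rw [inner_neg_left, e3] at h5
      linarith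
    have h7 := eq_neg_of_disjoint hv hw hdis
    rw [h7] at hwE
    exact hopp hwE
  · push Not at hN'
    have hE'o : IsOpen E' := S.op.inter (isOpen_HS _)
    obtain ⟨w, hw, hE'w, hwl, -⟩ := S.sheet_zero ha0 (C := E') inter_subset_left hE'o hE'ne
      (fun x hx hxE => by
        refine ⟨hxE, ?_⟩
        have h1 : x ∈ closure (HS (-v)) := closure_mono inter_subset_right hx
        have h2 : closure (HS (-v)) ⊆ {x | 0 ≤ inner ℝ (-v) x} := by
          apply closure_minimal
          · intro z hz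
            have hz' : 0 < inner ℝ (-v) z := hz
            exact hz'.le
          · exact isClosed_le continuous_const (by fun_prop)
        have h3 : 0 ≤ inner ℝ (-v) x := h2 h1
        rcases h3.eq_or_lt with h4 | h4
        · exfalso
          rw [inner_neg_left] at h4
          exact hplane x (by linarith) hxE
        · exact h4)
      (fun x hx => by
        have h1 := hN' x hx
        unfold Nf at h1
        nlinarith [sq_nonneg (fderiv ℝ u x a), sq_nonneg (fderiv ℝ u x b)])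
      (fun t ht x hx => by
        refine ⟨S.cone ht hx.1, ?_⟩
        show 0 < inner ℝ (-v) (t • x)
        rw [inner_smul_right]
        exact mul_pos ht hx.2)
    have hdis : Disjoint (HS v) (HS w) := by
      rw [← hE'w, Set.disjoint_left]
      intro z hz hz2
      have h5 : 0 < inner ℝ (-v) z := hz2.2
      have h6 : 0 < inner ℝ v z := hz
      rw [inner_neg_left] at h5
      linarith
    have h7 := eq_neg_of_disjoint hv hw hdis
    apply hopp
    rw [← h7, ← hE'w]
    exact inter_subset_left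

end Run7.h184
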