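import Pool.Agent.Run7.h184.Cutoff

set_option autoImplicit false
set_option linter.unusedSectionVars false
set_option linter.unusedVariables false

open MeasureTheory Set Filter Topology Metric

namespace Run7.h184

variable {n : ℕ}

section

variable {E : Set (V n)} {u : V n → ℝ} (S : Sol E u) (a b : V n)

include S

theorem Nf_small {δ : ℝ} (hδ : 0 < δ) {x : V n} (hx : x ∈ E) (hN : Nf u a b x = 0) :
    ∀ᶠ y in 𝓝 x, Nf u a b y / δ < 1 := by
  have h1 : ContinuousAt (Nf u a b) x :=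
    ((S.contDiffOn_Nf a b).continuousOn).continuousAt (S.op.mem_nhds hx)
  have h2 : ∀ᶠ y in 𝓝 x, Nf u a b y < δ := h1.eventually (gt_mem_nhds (by rw [hN]; exact hδ))
  filter_upwards [h2] with y hy
  exact (div_lt_one hδ).2 hy

theorem contOn_cut {δ : ℝ} (hδ : 0 < δ) {k : ℝ → ℝ} (hk : Continuous k) (hk0 : ∀ s < 1, k s = 0)
    {g : V n → ℝ} (hg : ∀ x ∈ E, Nf u a b x ≠ 0 → ContinuousAt g x) :
    ContinuousOn (fun x => k (Nf u a b x / δ) * g x) E := by
  intro x hx
  apply ContinuousAt.continuousWithinAt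
  by_cases hN : Nf u a b x = 0
  · have h1 : (fun x => k (Nf u a b x / δ) * g x) =ᶠ[𝓝 x] fun _ => 0 := by
      filter_upwards [Nf_small S a b hδ hx hN] with y hy
      rw [hk0 _ hy, zero_mul]
    exact continuousAt_const.congr h1.symm
  · have h1 : ContinuousAt (Nf u a b) x :=
      ((S.contDiffOn_Nf a b).continuousOn).continuousAt (S.op.mem_nhds hx)
    exact (hk.continuousAt.comp (h1.div_const δ)).mul (hg x hx hN)

theorem contDiffOn_cut {δ : ℝ} (hδ : 0 < δ) {θ : V n → ℝ} {C : ℝ} (A : Arg E u a b θ C) :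
    ContDiffOn ℝ 1 (fun x => cut (Nf u a b x / δ) * θ x) E := by
  intro x hx
  apply ContDiffAt.contDiffWithinAt
  by_cases hN : Nf u a b x = 0
  · have h1 : (fun x => cut (Nf u a b x / δ) * θ x) =ᶠ[𝓝 x] fun _ => 0 := by
      filter_upwards [Nf_small S a b hδ hx hN] with y hy
      rw [cut_zero hy.le, zero_mul]
    exact contDiffAt_const.congr_of_eventuallyEq h1
  · have h1 : ContDiffAt ℝ 1 (Nf u a b) x := (S.contDiffOn_Nf a b).contDiffAt (S.op.mem_nhds hx)
    exact (((cut_contDiff.of_le (by norm_num)).contDiffAt).comp x (h1.div_const δ)).mul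
      (A.contDiffAt S hx hN)

theorem fderiv_cut {δ : ℝ} (hδ : 0 < δ) {θ : V n → ℝ} {C : ℝ} (A : Arg E u a b θ C) {x : V n}
    (hx : x ∈ E) (hN : Nf u a b x ≠ 0) :
    fderiv ℝ (fun x => cut (Nf u a b x / δ) * θ x) x = cut (Nf u a b x / δ) • fderiv ℝ θ x +
      (deriv cut (Nf u a b x / δ) / δ * θ x) • fderiv ℝ (Nf u a b) x := by
  have h1 : HasFDerivAt (Nf u a b) (fderiv ℝ (Nf u a b) x) x :=
    (((S.contDiffOn_Nf a b).differentiableOn one_ne_zero).differentiableAt
      (S.op.mem_nhds hx)).hasFDerivAt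
  have h2 : HasFDerivAt (fun y => Nf u a b y / δ) (δ⁻¹ • fderiv ℝ (Nf u a b) x) x := by
    simp only [div_eq_mul_inv]
    exact h1.mul_const δ⁻¹
  have h3 : HasDerivAt cut (deriv cut (Nf u a b x / δ)) (Nf u a b x / δ) :=
    (cut_contDiff.differentiable (by norm_num) _).hasDerivAt
  have h4 := h3.comp_hasFDerivAt x h2
  have h5 := h4.mul ((A.contDiffAt S hx hN).differentiableAt one_ne_zero).hasFDerivAt
  have h6 : fderiv ℝ (fun x => cut (Nf u a b x / δ) * θ x) x = _ := h5.fderiv
  rw [h6]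
  ext v
  simp only [add_apply, smul_apply, smul_eq_mul, Function.comp_apply]
  ring

theorem fderiv_cut_zero {δ : ℝ} (hδ : 0 < δ) {θ : V n → ℝ} {x : V n}
    (hx : x ∈ E) (hN : Nf u a b x = 0) :
    fderiv ℝ (fun x => cut (Nf u a b x / δ) * θ x) x = 0 := by
  have h1 : (fun x => cut (Nf u a b x / δ) * θ x) =ᶠ[𝓝 x] fun _ => 0 := by
    filter_upwards [Nf_small S a b hδ hx hN] with y hy
    rw [cut_zero hy.le, zero_mul]
  rw [h1.fderiv_eq]
  simp

theorem contWf : ContinuousOn (Wf u a b) E := by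
  unfold Wf
  have h1 := S.contD1
  have h2 := S.contD2
  exact ((h1.clm_apply continuousOn_const).smul (h2.clm_apply continuousOn_const)).sub
    ((h1.clm_apply continuousOn_const).smul (h2.clm_apply continuousOn_const))

theorem contDN : ContinuousOn (fderiv ℝ (Nf u a b)) E :=
  (S.contDiffOn_Nf a b).continuousOn_fderiv_of_isOpen S.op le_rfl

/-- bound for the product of the Wronskian form and the derivative of `Nf` -/
theorem bound_WN {x : V n} (hx : x ∈ E) : |dp (Wf u a b x) (fderiv ℝ (Nf u a b) x)| ≤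
    8 * Nf u a b x * (‖fderiv ℝ (fderiv ℝ u) x‖ * (‖a‖ + ‖b‖)) ^ 2 := by
  set m := ‖fderiv ℝ (fderiv ℝ u) x‖ * (‖a‖ + ‖b‖) with hm
  have hm0 : 0 ≤ m := by positivity
  set r := Real.sqrt (Nf u a b x) with hr
  have hr0 : 0 ≤ r := Real.sqrt_nonneg _
  have hr2 : r ^ 2 = Nf u a b x := Real.sq_sqrt (Nf_nonneg u a b x)
  have ha : |fderiv ℝ u x a| ≤ r := by
    apply Real.le_sqrt_of_sq_le
    rw [sq_abs]; unfold Nf; nlinarith [sq_nonneg (fderiv ℝ u x b)]
  have hb : |fderiv ℝ u x b| ≤ r := by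
    apply Real.le_sqrt_of_sq_le
    rw [sq_abs]; unfold Nf; nlinarith [sq_nonneg (fderiv ℝ u x a)]
  have hda : ‖fderiv ℝ (fderiv ℝ u) x a‖ ≤ m := by
    refine (ContinuousLinearMap.le_opNorm _ _).trans ?_
    rw [hm]
    exact mul_le_mul_of_nonneg_left (by linarith [norm_nonneg b])
      (ContinuousLinearMap.opNorm_nonneg _)
  have hdb : ‖fderiv ℝ (fderiv ℝ u) x b‖ ≤ m := by
    refine (ContinuousLinearMap.le_opNorm _ _).trans ?_
    rw [hm]
    exact mul_le_mul_of_nonneg_left (by linarith [norm_nonneg a])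
      (ContinuousLinearMap.opNorm_nonneg _)
  have hW : ‖Wf u a b x‖ ≤ 2 * r * m := by
    unfold Wf
    refine (norm_sub_le _ _).trans ?_
    rw [norm_smul, norm_smul, Real.norm_eq_abs, Real.norm_eq_abs]
    have h1 := mul_le_mul ha hdb (norm_nonneg _) hr0
    have h2 := mul_le_mul hb hda (norm_nonneg _) hr0
    linarith
  have hDN : fderiv ℝ (Nf u a b) x = (2 * fderiv ℝ u x a) • fderiv ℝ (fderiv ℝ u) x a +
      (2 * fderiv ℝ u x b) • fderiv ℝ (fderiv ℝ u) x b := by
    have e : ∀ c : V n, HasFDerivAt (fun y => fderiv ℝ u y c) (fderiv ℝ (fderiv ℝ u) x c) x := by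
      intro c
      rw [← fderiv_apply_eq' S.op S.c2 hx]
      exact (((contDiffOn_fderiv_apply S.op S.c2 c).differentiableOn one_ne_zero).differentiableAt
        (S.op.mem_nhds hx)).hasFDerivAt
    have h1 := ((e a).mul (e a)).add ((e b).mul (e b))
    have h2 : Nf u a b = fun y => fderiv ℝ u y a * fderiv ℝ u y a +
        fderiv ℝ u y b * fderiv ℝ u y b := by
      ext y; unfold Nf; ring
    rw [h2]
    have h3 : fderiv ℝ (fun y => fderiv ℝ u y a * fderiv ℝ u y a +
        fderiv ℝ u y b * fderiv ℝ u y b) x = _ := h1.fderiv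
    rw [h3]
    ext v
    simp only [add_apply, smul_apply, smul_eq_mul]
    ring
  have hDN' : ‖fderiv ℝ (Nf u a b) x‖ ≤ 4 * r * m := by
    rw [hDN]
    refine (norm_add_le _ _).trans ?_
    rw [norm_smul, norm_smul, Real.norm_eq_abs, Real.norm_eq_abs, abs_mul, abs_mul, abs_two]
    have h1 := mul_le_mul ha hda (norm_nonneg _) hr0
    have h2 := mul_le_mul hb hdb (norm_nonneg _) hr0
    linarith
  calc |dp (Wf u a b x) (fderiv ℝ (Nf u a b) x)| ≤ ‖Wf u a b x‖ * ‖fderiv ℝ (Nf u a b) x‖ :=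
        abs_dp_le _ _
    _ ≤ (2 * r * m) * (4 * r * m) := mul_le_mul hW hDN' (norm_nonneg _) (by positivity)
    _ = 8 * Nf u a b x * m ^ 2 := by rw [← hr2]; ring

variable {K : Set (V n)} {ζ : V n → ℝ} (R : Rad K ζ) {ε : ℝ} (hε : 0 < ε)

include R hε

/-- pointwise splitting -/
theorem split {δ : ℝ} (hδ : 0 < δ) {θ : V n → ℝ} {C : ℝ} (A : Arg E u a b θ C) (x : V n) :
    dp (Wf u a b x) (fderiv ℝ (fun y => (cut (Nf u a b y / δ) * θ y) * chi u ζ ε y) x) =
      (cut (Nf u a b x / δ) * (‖Wf u a b x‖ ^ 2 / Nf u a b x)) * chi u ζ ε x +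
      ((deriv cut (Nf u a b x / δ) / δ) * (θ x * dp (Wf u a b x) (fderiv ℝ (Nf u a b) x))) *
        chi u ζ ε x +
      (cut (Nf u a b x / δ) * (θ x * Wf u a b x (vec (fderiv ℝ u x)))) * she u ζ ε x := by
  by_cases hx : x ∈ E
  · have d1 : DifferentiableAt ℝ (fun x => cut (Nf u a b x / δ) * θ x) x :=
      ((contDiffOn_cut S a b hδ A).differentiableOn one_ne_zero).differentiableAt
        (S.op.mem_nhds hx)
    have d2 : DifferentiableAt ℝ (chi u ζ ε) x :=
      (chi_contDiff S R hε).differentiable one_ne_zero x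
    have e1 : dp (Wf u a b x) (fderiv ℝ (chi u ζ ε) x) =
        Wf u a b x (vec (fderiv ℝ u x)) * she u ζ ε x := by
      obtain ⟨c, hc⟩ := R.rad x
      rw [chi_fderiv S R hε hx, dp_add_right, dp_smul_right, dp_smul_right,
        dp_inner _ _ c x hc, S.Wf_self hx, dp_eq]
      ring
    rw [fderiv_fun_mul d1 d2, dp_add_right, dp_smul_right, dp_smul_right, e1]
    by_cases hN : Nf u a b x = 0
    · rw [fderiv_cut_zero S a b hδ hx hN, dp_zero_right, hN, zero_div, cut_zero (by norm_num),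
        cut_deriv_zero_left (by norm_num)]
      simp
    · rw [fderiv_cut S a b hδ A hx hN, dp_add_right, dp_smul_right, dp_smul_right]
      have e2 : dp (Wf u a b x) (fderiv ℝ θ x) = ‖Wf u a b x‖ ^ 2 / Nf u a b x := by
        have h1 : fderiv ℝ θ x = (Nf u a b x)⁻¹ • Wf u a b x := by
          rw [← A.fderiv_eq S hx hN, smul_smul, inv_mul_cancel₀ hN, one_smul]
        rw [h1, dp_smul_right, dp_self]
        field_simp
      rw [e2]
      ring
  · rw [chi_out S R hε hx, she_out S R hε hx, mul_zero, mul_zero, mul_zero]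
    have : fderiv ℝ (fun y => (cut (Nf u a b y / δ) * θ y) * chi u ζ ε y) x = 0 := by
      by_contra h
      exact hx (chi_tsupport S R hε (tsupport_mul_subset_right (support_fderiv_subset ℝ h)))
    rw [this, dp_zero_right]
    simp

theorem int1 {δ : ℝ} (hδ : 0 < δ) : Integrable (fun x =>
    (cut (Nf u a b x / δ) * (‖Wf u a b x‖ ^ 2 / Nf u a b x)) * chi u ζ ε x) := by
  apply integrable_mul_of_tsupport S.op _ (chi_contDiff S R hε).continuous (chi_compact S R hε)
    (chi_tsupport S R hε)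
  apply contOn_cut S a b hδ cut_contDiff.continuous (fun s hs => cut_zero hs.le)
  intro x hx hN
  have h1 := (contWf S a b).continuousAt (S.op.mem_nhds hx)
  have h2 : ContinuousAt (Nf u a b) x :=
    ((S.contDiffOn_Nf a b).continuousOn).continuousAt (S.op.mem_nhds hx)
  exact (h1.norm.pow 2).div h2 hN

theorem int2 {δ : ℝ} (hδ : 0 < δ) {θ : V n → ℝ} {C : ℝ} (A : Arg E u a b θ C) :
    Integrable (fun x => ((deriv cut (Nf u a b x / δ) / δ) *
      (θ x * dp (Wf u a b x) (fderiv ℝ (Nf u a b) x))) * chi u ζ ε x) := by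
  apply integrable_mul_of_tsupport S.op _ (chi_contDiff S R hε).continuous (chi_compact S R hε)
    (chi_tsupport S R hε)
  apply contOn_cut S a b hδ (k := fun s => deriv cut s / δ) (cut_deriv_cont.div_const δ)
    (fun s hs => by rw [cut_deriv_zero_left hs, zero_div])
  intro x hx hN
  have h1 := (contWf S a b).continuousAt (S.op.mem_nhds hx)
  have h2 := (contDN S a b).continuousAt (S.op.mem_nhds hx)
  have h3 : ContinuousAt (fun x => dp (Wf u a b x) (fderiv ℝ (Nf u a b) x)) x := by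
    unfold dp
    apply tendsto_finsetSum
    intro i _
    exact (h1.clm_apply continuousAt_const).mul (h2.clm_apply continuousAt_const)
  exact (A.contDiffAt S hx hN).continuousAt.mul h3

theorem int3 {δ : ℝ} (hδ : 0 < δ) {θ : V n → ℝ} {C : ℝ} (A : Arg E u a b θ C) :
    Integrable (fun x => (cut (Nf u a b x / δ) * (θ x * Wf u a b x (vec (fderiv ℝ u x)))) *
      she u ζ ε x) := by
  apply integrable_mul_of_tsupport S.op _ (she_cont S R hε) (she_compact S R hε)
    (she_tsupport S R hε)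
  apply contOn_cut S a b hδ cut_contDiff.continuous (fun s hs => cut_zero hs.le)
  intro x hx hN
  have h1 := (contWf S a b).continuousAt (S.op.mem_nhds hx)
  have h2 := S.contD1.continuousAt (S.op.mem_nhds hx)
  exact (A.contDiffAt S hx hN).continuousAt.mul
    (h1.clm_apply (continuous_vec.continuousAt.comp h2))

/-- the sum of the three integrals vanishes -/
theorem sum_zero {δ : ℝ} (hδ : 0 < δ) {θ : V n → ℝ} {C : ℝ} (A : Arg E u a b θ C) :
    (∫ x, (cut (Nf u a b x / δ) * (‖Wf u a b x‖ ^ 2 / Nf u a b x)) * chi u ζ ε x) +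
    (∫ x, ((deriv cut (Nf u a b x / δ) / δ) *
      (θ x * dp (Wf u a b x) (fderiv ℝ (Nf u a b) x))) * chi u ζ ε x) +
    (∫ x, (cut (Nf u a b x / δ) * (θ x * Wf u a b x (vec (fderiv ℝ u x)))) *
      she u ζ ε x) = 0 := by
  have h := S.weak_W a b (η := fun y => (cut (Nf u a b y / δ) * θ y) * chi u ζ ε y)
    (contDiff_mul_of_tsupport S.op (contDiffOn_cut S a b hδ A) (chi_contDiff S R hε)
      (chi_tsupport S R hε)) (chi_compact S R hε).mul_left
    ((tsupport_mul_subset_right).trans (chi_tsupport S R hε))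
  have i1 := int1 S a b R hε hδ
  have i2 := int2 S a b R hε hδ A
  have i3 := int3 S a b R hε hδ A
  have e1 := integral_add i1 i2
  have e2 := integral_add (i1.add i2) i3
  simp only [Pi.add_apply] at e2
  rw [← e1, ← e2, ← h]
  congr 1
  ext x
  rw [split S a b R hε hδ A]

/-- the second integral tends to zero -/
theorem lim2 {θ : V n → ℝ} {C : ℝ} (A : Arg E u a b θ C) {δ : ℕ → ℝ} (hδ : ∀ k, 0 < δ k)
    (hδ0 : Tendsto δ atTop (𝓝 0)) : Tendsto (fun k => ∫ x, ((deriv cut (Nf u a b x / δ k) / δ k) *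
      (θ x * dp (Wf u a b x) (fderiv ℝ (Nf u a b) x))) * chi u ζ ε x) atTop (𝓝 0) := by
  obtain ⟨B, hB0, hB⟩ := cut_deriv_bound
  have key := tendsto_integral_of_dominated_convergence (μ := (volume : Measure (V n)))
    (F := fun k x => ((deriv cut (Nf u a b x / δ k) / δ k) *
      (θ x * dp (Wf u a b x) (fderiv ℝ (Nf u a b) x))) * chi u ζ ε x) (f := fun _ => 0)
    (fun x => (16 * B * |C| * (‖fderiv ℝ (fderiv ℝ u) x‖ * (‖a‖ + ‖b‖)) ^ 2) * chi u ζ ε x)
    (fun k => (int2 S a b R hε (hδ k) A).aestronglyMeasurable) ?_ ?_ ?_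
  · simpa using key
  · apply integrable_mul_of_tsupport S.op _ (chi_contDiff S R hε).continuous (chi_compact S R hε)
      (chi_tsupport S R hε)
    have h1 : ContinuousOn (fun x => ‖fderiv ℝ (fderiv ℝ u) x‖) E :=
      (continuous_norm (E := V n →L[ℝ] V n →L[ℝ] ℝ)).comp_continuousOn S.contD2
    exact continuousOn_const.mul ((h1.mul continuousOn_const).pow 2)
  · intro k
    refine Eventually.of_forall fun x => ?_
    by_cases hx : x ∈ E
    swap
    · rw [chi_out S R hε hx]; simp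
    rw [Real.norm_eq_abs, abs_mul, abs_of_nonneg (chi_nonneg S R hε x)]
    apply mul_le_mul_of_nonneg_right _ (chi_nonneg S R hε x)
    by_cases hN : Nf u a b x = 0
    · rw [hN, zero_div, cut_deriv_zero_left (by norm_num)]
      simp only [zero_div, zero_mul, abs_zero]
      positivity
    by_cases hN2 : 2 < Nf u a b x / δ k
    · rw [cut_deriv_zero_right hN2]
      simp only [zero_div, zero_mul, abs_zero]
      positivity
    · have hN3 : Nf u a b x ≤ 2 * δ k := by
        rw [not_lt, div_le_iff₀ (hδ k)] at hN2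
        exact hN2
      rw [abs_mul, abs_mul, abs_div, abs_of_pos (hδ k)]
      have h1 : |θ x| ≤ |C| := (A.bound x hx hN).trans (le_abs_self _)
      have h2 := bound_WN S a b hx
      set m2 := (‖fderiv ℝ (fderiv ℝ u) x‖ * (‖a‖ + ‖b‖)) ^ 2 with hm2
      have hm2' : 0 ≤ m2 := by positivity
      have h3 : |dp (Wf u a b x) (fderiv ℝ (Nf u a b) x)| ≤ 16 * δ k * m2 := by
        refine h2.trans ?_
        have := mul_le_mul_of_nonneg_right hN3 hm2'
        nlinarith
      calc |deriv cut (Nf u a b x / δ k)| / δ k *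
            (|θ x| * |dp (Wf u a b x) (fderiv ℝ (Nf u a b) x)|)
          ≤ B / δ k * (|C| * (16 * δ k * m2)) := by
            apply mul_le_mul
            · exact div_le_div_of_nonneg_right (hB _) (hδ k).le
            · exact mul_le_mul h1 h3 (abs_nonneg _) (abs_nonneg _)
            · positivity
            · exact div_nonneg hB0 (hδ k).le
        _ = 16 * B * |C| * m2 := by
            have := (hδ k).ne'
            field_simp
  · refine Eventually.of_forall fun x => ?_
    by_cases hx : x ∈ E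
    swap
    · simp [chi_out S R hε hx]
    by_cases hN : Nf u a b x = 0
    · simp [hN, cut_deriv_zero_left (show (0:ℝ) < 1 by norm_num)]
    have hpos : 0 < Nf u a b x := lt_of_le_of_ne (Nf_nonneg u a b x) (Ne.symm hN)
    apply tendsto_const_nhds.congr'
    filter_upwards [hδ0.eventually (gt_mem_nhds (by positivity : 0 < Nf u a b x / 2))] with k hk
    rw [cut_deriv_zero_right]
    · simp
    · rw [lt_div_iff₀ (hδ k)]
      linarith

/-- bound of the third integral -/
theorem bound3 {θ : V n → ℝ} {C : ℝ} (A : Arg E u a b θ C) {δ : ℝ} (hδ : 0 < δ) {ε₀ η : ℝ}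
    (hη : 0 ≤ η) (hs : ∀ x ∈ K ∩ E, u x < ε₀ → |Wf u a b x (vec (fderiv ℝ u x))| ≤ η)
    (h2 : 2 * ε < ε₀) :
    |∫ x, (cut (Nf u a b x / δ) * (θ x * Wf u a b x (vec (fderiv ℝ u x)))) *
      she u ζ ε x| ≤ |C| * η * ∫ x, she u ζ ε x := by
  have hsi : Integrable (she u ζ ε) :=
    (she_cont S R hε).integrable_of_hasCompactSupport (she_compact S R hε)
  rw [← integral_const_mul]
  refine (abs_integral_le_integral_abs).trans ?_
  apply integral_mono (int3 S a b R hε hδ A).abs (hsi.const_mul _)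
  intro x
  simp only
  rw [abs_mul, abs_of_nonneg (she_nonneg S R hε x)]
  by_cases hx : she u ζ ε x = 0
  · rw [hx]; simp
  apply mul_le_mul_of_nonneg_right _ (she_nonneg S R hε x)
  have hxE : x ∈ E := by
    by_contra h
    exact hx (she_out S R hε h)
  have hxK : x ∈ K := by
    by_contra h
    exact hx (by rw [she, R.supp x h, mul_zero])
  have hux : u x < ε₀ := by
    by_contra h
    apply hx
    rw [she, cut_deriv_zero_right, zero_div, zero_mul]
    rw [lt_div_iff₀ hε]
    linarith [not_lt.1 h]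
  by_cases hN : Nf u a b x = 0
  · rw [hN, zero_div, cut_zero (by norm_num)]
    simp only [zero_mul, abs_zero]
    positivity
  rw [abs_mul, abs_mul, abs_of_nonneg (cut_nonneg _)]
  have h1 : |θ x| ≤ |C| := (A.bound x hxE hN).trans (le_abs_self _)
  calc cut (Nf u a b x / δ) * (|θ x| * |Wf u a b x (vec (fderiv ℝ u x))|)
      ≤ 1 * (|C| * η) := by
        apply mul_le_mul (cut_le_one _) _ (by positivity) zero_le_one
        exact mul_le_mul h1 (hs x ⟨hxK, hxE⟩ hux) (abs_nonneg _) (abs_nonneg _)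
    _ = |C| * η := one_mul _

end

/-- **Main analytic step**: the Wronskian form vanishes. -/
theorem Sol.W_zero {E : Set (V n)} {u : V n → ℝ} (S : Sol E u) {a b : V n} {θ : V n → ℝ} {C : ℝ}
    (A : Arg E u a b θ C) {x₀ : V n} (hx₀ : x₀ ∈ E) (hN₀ : Nf u a b x₀ ≠ 0) :
    Wf u a b x₀ = 0 := by
  by_contra hW
  have hx00 : x₀ ≠ 0 := fun h => S.zero_nmem (h ▸ hx₀)
  obtain ⟨K, ζ, R, hζ1⟩ := exists_rad hx00
  obtain ⟨c, hc⟩ := S.grad_bound R.compact R.zero
  have hc' : ∀ x ∈ K ∩ E, ‖fderiv ℝ u x‖ ≤ |c| := fun x hx => (hc x hx).trans (le_abs_self _)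
  set M : ℝ := 4 * (|c| * ∫ x, ‖fderiv ℝ ζ x‖) with hM
  have hM0 : 0 ≤ M := by
    have : 0 ≤ ∫ x, ‖fderiv ℝ ζ x‖ := integral_nonneg fun x => norm_nonneg _
    positivity
  -- the ball
  set N₀ := Nf u a b x₀ with hN₀'
  have hN₀p : 0 < N₀ := lt_of_le_of_ne (Nf_nonneg u a b x₀) (Ne.symm hN₀)
  set u₀ := u x₀ with hu₀'
  have hu₀p : 0 < u₀ := S.pos x₀ hx₀
  set q₀ := ‖Wf u a b x₀‖ ^ 2 / N₀ with hq₀
  have hq₀p : 0 < q₀ := by
    have : 0 < ‖Wf u a b x₀‖ := norm_pos_iff.2 hW
    positivity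
  have hcN : ContinuousAt (Nf u a b) x₀ :=
    ((S.contDiffOn_Nf a b).continuousOn).continuousAt (S.op.mem_nhds hx₀)
  have hcW : ContinuousAt (Wf u a b) x₀ := (contWf S a b).continuousAt (S.op.mem_nhds hx₀)
  have hcq : ContinuousAt (fun x => ‖Wf u a b x‖ ^ 2 / Nf u a b x) x₀ :=
    (hcW.norm.pow 2).div hcN hN₀
  have ev : ∀ᶠ x in 𝓝 x₀, x ∈ E ∧ N₀ / 2 < Nf u a b x ∧ u₀ / 2 < u x ∧
      q₀ / 2 < ‖Wf u a b x‖ ^ 2 / Nf u a b x ∧ 1 / 2 < ζ x := by
    refine (S.op.eventually_mem hx₀).and ((hcN.eventually (lt_mem_nhds ?_)).and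
      ((S.cont.continuousAt.eventually (lt_mem_nhds ?_)).and
      ((hcq.eventually (lt_mem_nhds ?_)).and
      (R.smooth.continuous.continuousAt.eventually (lt_mem_nhds ?_)))))
    · exact half_lt_self hN₀p
    · exact half_lt_self hu₀p
    · exact half_lt_self hq₀p
    · rw [hζ1]; norm_num
  obtain ⟨r, hr, hball⟩ := Metric.eventually_nhds_iff_ball.1 ev
  set I₀ : ℝ := (q₀ / 4) * (volume (ball x₀ r)).toReal with hI₀
  have hvol : 0 < (volume (ball x₀ r)).toReal :=
    ENNReal.toReal_pos (measure_ball_pos volume x₀ hr).ne' measure_ball_lt_top.ne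
  have hI₀p : 0 < I₀ := by positivity
  set η : ℝ := I₀ / (2 * (|C| * M + 1)) with hη
  have hηp : 0 < η := by positivity
  obtain ⟨ε₀, hε₀, hsh⟩ := S.shell R.compact R.zero a b hηp
  set ε : ℝ := min (ε₀ / 4) (u₀ / 4) with hε'
  have hε : 0 < ε := by positivity
  have hε1 : 2 * ε < ε₀ := by
    have := min_le_left (ε₀ / 4) (u₀ / 4)
    linarith
  have hε2 : ε ≤ u₀ / 4 := min_le_right _ _
  have hmass := shell_mass S R hε hc' (abs_nonneg c) (fun x hx h => (hsh x hx h).2) hε1
  have hlow : ∀ δ : ℝ, 0 < δ → δ ≤ N₀ / 4 → I₀ ≤ ∫ x, (cut (Nf u a b x / δ) *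
      (‖Wf u a b x‖ ^ 2 / Nf u a b x)) * chi u ζ ε x := by
    intro δ hδ hδN
    have hi := int1 S a b R hε hδ
    have h0 : ∀ x, 0 ≤ (cut (Nf u a b x / δ) *
        (‖Wf u a b x‖ ^ 2 / Nf u a b x)) * chi u ζ ε x := by
      intro x
      have := Nf_nonneg u a b x
      exact mul_nonneg (mul_nonneg (cut_nonneg _) (div_nonneg (by positivity) this))
        (chi_nonneg S R hε x)
    calc I₀ = ∫ x in ball x₀ r, q₀ / 4 := by
          rw [setIntegral_const, smul_eq_mul, hI₀, mul_comm]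
          rfl
      _ ≤ ∫ x in ball x₀ r, (cut (Nf u a b x / δ) *
          (‖Wf u a b x‖ ^ 2 / Nf u a b x)) * chi u ζ ε x := by
          apply setIntegral_mono_on (integrableOn_const measure_ball_lt_top.ne) hi.integrableOn
            measurableSet_ball
          intro x hx
          obtain ⟨h1, h2, h3, h4, h5⟩ := hball x hx
          have e1 : cut (Nf u a b x / δ) = 1 := by
            apply cut_one
            rw [le_div_iff₀ hδ]
            linarith
          have e2 : cut (u x / ε) = 1 := by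
            apply cut_one
            rw [le_div_iff₀ hε]
            linarith
          rw [e1, one_mul, chi, e2, one_mul]
          nlinarith
      _ ≤ _ := setIntegral_le_integral hi (Eventually.of_forall h0)
  -- the limit
  set δ : ℕ → ℝ := fun k => (N₀ / 4) / ((k : ℝ) + 1) with hδdef
  have hδp : ∀ k, 0 < δ k := fun k => by positivity
  have hδN : ∀ k, δ k ≤ N₀ / 4 := by
    intro k
    rw [hδdef]
    exact div_le_self (by positivity) (by linarith [(Nat.cast_nonneg k : (0:ℝ) ≤ k)])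
  have hδ0 : Tendsto δ atTop (𝓝 0) := by
    have h1 := tendsto_one_div_add_atTop_nhds_zero_nat (𝕜 := ℝ)
    have h2 := h1.const_mul (N₀ / 4)
    rw [mul_zero] at h2
    refine h2.congr fun k => ?_
    rw [hδdef]
    ring
  have hl2 := lim2 S a b R hε A hδp hδ0
  have hineq : ∀ k, I₀ ≤ |C| * η * M + |∫ x, ((deriv cut (Nf u a b x / δ k) / δ k) *
      (θ x * dp (Wf u a b x) (fderiv ℝ (Nf u a b) x))) * chi u ζ ε x| := by
    intro k
    have h1 := sum_zero S a b R hε (hδp k) A
    have h2 := hlow (δ k) (hδp k) (hδN k)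
    have h3 := bound3 S a b R hε A (hδp k) hηp.le (fun x hx h => (hsh x hx h).1) hε1
    have h4 : |C| * η * ∫ x, she u ζ ε x ≤ |C| * η * M :=
      mul_le_mul_of_nonneg_left hmass (by positivity)
    have h5 := neg_abs_le (∫ x, (cut (Nf u a b x / δ k) *
      (θ x * Wf u a b x (vec (fderiv ℝ u x)))) * she u ζ ε x)
    have h6 := neg_abs_le (∫ x, ((deriv cut (Nf u a b x / δ k) / δ k) *
      (θ x * dp (Wf u a b x) (fderiv ℝ (Nf u a b) x))) * chi u ζ ε x)
    linarith
  have hfinal : I₀ ≤ |C| * η * M + |0| := by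
    apply ge_of_tendsto (tendsto_const_nhds.add hl2.abs)
    exact Eventually.of_forall hineq
  rw [abs_zero, add_zero] at hfinal
  have h7 : |C| * η * M < I₀ := by
    have h8 : |C| * η * M = I₀ * ((|C| * M) / (2 * (|C| * M + 1))) := by
      rw [hη]; ring
    rw [h8]
    have h9 : 0 ≤ |C| * M := by positivity
    have h10 : (|C| * M) / (2 * (|C| * M + 1)) < 1 := by
      rw [div_lt_one (by positivity)]
      linarith
    nlinarith
  linarith

end Run7.h184
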