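import Pool.Agent.Run7.h184.Bdry

set_option autoImplicit false

open MeasureTheory Set Filter Topology Metric

namespace Run7.h184

variable {n : ℕ}

theorem unif {E K : Set (V n)} (hK : IsCompact K) {q : V n → ℝ → Prop}
    (hm : ∀ x c c', c ≤ c' → q x c → q x c') (h : ∀ p ∈ K, ∃ c, ∀ᶠ x in 𝓝[E] p, q x c) :
    ∃ c, ∀ x ∈ K ∩ E, q x c := by
  refine hK.induction_on (p := fun s => ∃ c, ∀ x ∈ s ∩ E, q x c) ⟨0, by simp⟩ ?_ ?_ ?_
  · rintro s t hst ⟨c, hc⟩
    exact ⟨c, fun x hx => hc x ⟨hst hx.1, hx.2⟩⟩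
  · rintro s t ⟨c, hc⟩ ⟨c', hc'⟩
    refine ⟨max c c', fun x hx => ?_⟩
    rcases hx.1 with h | h
    · exact hm x c _ (le_max_left _ _) (hc x ⟨h, hx.2⟩)
    · exact hm x c' _ (le_max_right _ _) (hc' x ⟨h, hx.2⟩)
  · intro p hp
    obtain ⟨c, hc⟩ := h p hp
    rw [eventually_nhdsWithin_iff] at hc
    exact ⟨_, mem_nhdsWithin_of_mem_nhds hc, c, fun x hx => hx.1 hx.2⟩

theorem Sol.zero_at {E : Set (V n)} {u : V n → ℝ} (S : Sol E u) : u 0 = 0 := by
  have := S.hom 2 (by norm_num) 0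
  rw [smul_zero] at this
  linarith

theorem Sol.zero_nmem {E : Set (V n)} {u : V n → ℝ} (S : Sol E u) : (0 : V n) ∉ E := by
  intro h
  have := S.pos 0 h
  rw [S.zero_at] at this
  exact lt_irrefl _ this

theorem cases_closure {E : Set (V n)} (hE : IsOpen E) (p : V n) :
    p ∈ E ∨ p ∈ frontier E ∨ 𝓝[E] p = ⊥ := by
  by_cases h1 : p ∈ E
  · exact Or.inl h1
  by_cases h2 : p ∈ closure E
  · right; left
    rw [hE.frontier_eq]
    exact ⟨h2, h1⟩
  · right; right
    rw [mem_closure_iff_nhdsWithin_neBot] at h2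
    exact Filter.not_neBot.1 h2

theorem Sol.contD1 {E : Set (V n)} {u : V n → ℝ} (S : Sol E u) : ContinuousOn (fderiv ℝ u) E :=
  S.c2.continuousOn_fderiv_of_isOpen S.op (by norm_num)

theorem Sol.contD2 {E : Set (V n)} {u : V n → ℝ} (S : Sol E u) :
    ContinuousOn (fderiv ℝ (fderiv ℝ u)) E :=
  (S.c2.fderiv_of_isOpen S.op (m := 1) (by norm_num)).continuousOn_fderiv_of_isOpen S.op le_rfl

/-- the gradient is bounded away from the origin -/
theorem Sol.grad_bound {E : Set (V n)} {u : V n → ℝ} (S : Sol E u) {K : Set (V n)}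
    (hK : IsCompact K) (h0 : (0 : V n) ∉ K) : ∃ c, ∀ x ∈ K ∩ E, ‖fderiv ℝ u x‖ ≤ c := by
  refine unif hK (q := fun x c => ‖fderiv ℝ u x‖ ≤ c) (fun x c c' h h' => h'.trans h) ?_
  intro p hp
  rcases cases_closure S.op p with h | h | h
  · have h1 : Tendsto (fun x => ‖fderiv ℝ u x‖) (𝓝[E] p) (𝓝 ‖fderiv ℝ u p‖) :=
      (S.contD1 p h).norm
    exact ⟨‖fderiv ℝ u p‖ + 1, (h1.eventually (gt_mem_nhds (lt_add_one _))).mono
      fun x hx => le_of_lt hx⟩
  · have h1 := (S.shell_local h (fun e => h0 (e ▸ hp)) 0 0).2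
    exact ⟨2, (h1.eventually (gt_mem_nhds (by norm_num : (1:ℝ) < 2))).mono
      fun x hx => le_of_lt hx⟩
  · exact ⟨0, by rw [h]; exact eventually_bot⟩

/-- the smallness near the free boundary, uniformly away from the origin -/
theorem Sol.shell {E : Set (V n)} {u : V n → ℝ} (S : Sol E u) {K : Set (V n)}
    (hK : IsCompact K) (h0 : (0 : V n) ∉ K) (a b : V n) {δ : ℝ} (hδ : 0 < δ) :
    ∃ ε > 0, ∀ x ∈ K ∩ E, u x < ε →
      |Wf u a b x (vec (fderiv ℝ u x))| ≤ δ ∧ 1 / 2 ≤ ‖fderiv ℝ u x‖ := by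
  have := unif (E := E) hK (q := fun x c => u x < Real.exp (-c) →
    |Wf u a b x (vec (fderiv ℝ u x))| ≤ δ ∧ 1 / 2 ≤ ‖fderiv ℝ u x‖)
    (fun x c c' h h' hx => h' (hx.trans_le (Real.exp_le_exp.2 (by linarith)))) ?_
  · obtain ⟨c, hc⟩ := this
    exact ⟨Real.exp (-c), Real.exp_pos _, hc⟩
  intro p hp
  rcases cases_closure S.op p with h | h | h
  · have hup := S.pos p h
    refine ⟨-Real.log (u p / 2), ?_⟩
    rw [neg_neg, Real.exp_log (by positivity)]
    have h1 : ∀ᶠ x in 𝓝 p, u p / 2 < u x :=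
      S.cont.continuousAt.eventually (lt_mem_nhds (by linarith))
    filter_upwards [h1.filter_mono nhdsWithin_le_nhds] with x hx hx'
    exact absurd hx' (not_lt.2 hx.le)
  · obtain ⟨h1, h2⟩ := S.shell_local h (fun e => h0 (e ▸ hp)) a b
    refine ⟨0, ?_⟩
    have h3 := (h1.abs).eventually (gt_mem_nhds (by simpa using hδ : |(0:ℝ)| < δ))
    filter_upwards [h3, h2.eventually (lt_mem_nhds (by norm_num : (1/2:ℝ) < 1))] with x hx hx' _
    exact ⟨hx.le, hx'.le⟩
  · exact ⟨0, by rw [h]; exact eventually_bot⟩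

/-- the derivatives of a homogeneous solution have radial derivative zero -/
theorem Sol.radial {E : Set (V n)} {u : V n → ℝ} (S : Sol E u) {x : V n} (hx : x ∈ E) (b : V n) :
    fderiv ℝ (fderiv ℝ u) x b x = 0 := by
  rw [sndSymm S.op S.c2 hx]
  -- the gradient is constant along rays
  have hE : ∀ t : ℝ, 0 < t → ∀ y ∈ E, t • y ∈ E := by
    intro t ht y hy
    by_contra h
    have := S.zero _ h
    rw [S.hom t ht] at this
    have := mul_pos ht (S.pos y hy)
    linarith
  have hd : ∀ t : ℝ, 0 < t → fderiv ℝ u (t • x) = fderiv ℝ u x := by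
    intro t ht
    have h1 : HasFDerivAt u (fderiv ℝ u (t • x)) (t • x) :=
      ((S.c2.differentiableOn (by norm_num)).differentiableAt
        (S.op.mem_nhds (hE t ht x hx))).hasFDerivAt
    have h2 : HasFDerivAt (fun y : V n => t • y) (t • ContinuousLinearMap.id ℝ (V n)) x :=
      (hasFDerivAt_id x).const_smul t
    have h3 : HasFDerivAt (fun y => u (t • y)) ((fderiv ℝ u (t • x)).comp
      (t • ContinuousLinearMap.id ℝ (V n))) x := h1.comp x h2
    have h4 : HasFDerivAt (fun y => t * u y) (t • fderiv ℝ u x) x :=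
      (((S.c2.differentiableOn (by norm_num)).differentiableAt
        (S.op.mem_nhds hx)).hasFDerivAt).const_mul t
    have h5 : (fun y => u (t • y)) = fun y => t * u y := by
      ext y; exact S.hom t ht y
    rw [h5] at h3
    have h6 := h3.unique h4
    ext v
    have h7 := congrArg (fun L : V n →L[ℝ] ℝ => L v) h6
    simp only [ContinuousLinearMap.comp_apply, smul_apply, ContinuousLinearMap.id_apply, map_smul,
      smul_eq_mul] at h7
    exact mul_left_cancel₀ ht.ne' h7
  have h1 : HasFDerivAt (fderiv ℝ u) (fderiv ℝ (fderiv ℝ u) x) x :=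
    (((S.c2.fderiv_of_isOpen S.op (m := 1) (by norm_num)).differentiableOn
      one_ne_zero).differentiableAt (S.op.mem_nhds hx)).hasFDerivAt
  have h2 : HasDerivAt (fun t : ℝ => t • x) x 1 := by
    simpa using (hasDerivAt_id (1:ℝ)).smul_const x
  have h1' : HasFDerivAt (fderiv ℝ u) (fderiv ℝ (fderiv ℝ u) x) ((1:ℝ) • x) := by
    rw [one_smul]; exact h1
  have h3 : HasDerivAt (fun t : ℝ => fderiv ℝ u (t • x)) (fderiv ℝ (fderiv ℝ u) x x) 1 :=
    h1'.comp_hasDerivAt (1:ℝ) h2
  have h4 : HasDerivAt (fun t : ℝ => fderiv ℝ u (t • x)) 0 1 := by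
    apply (hasDerivAt_const (1:ℝ) (fderiv ℝ u x)).congr_of_eventuallyEq
    filter_upwards [lt_mem_nhds (by norm_num : (0:ℝ) < 1)] with t ht
    exact hd t ht
  have h5 := h3.unique h4
  rw [h5]
  rfl

theorem Sol.Wf_self {E : Set (V n)} {u : V n → ℝ} (S : Sol E u) {x : V n} (hx : x ∈ E)
    (a b : V n) : Wf u a b x x = 0 := by
  have : Wf u a b x x = fderiv ℝ u x a * fderiv ℝ (fderiv ℝ u) x b x -
    fderiv ℝ u x b * fderiv ℝ (fderiv ℝ u) x a x := rfl
  rw [this, S.radial hx, S.radial hx]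
  ring

theorem fderiv_apply_eq' {E : Set (V n)} (hE : IsOpen E) {u : V n → ℝ} (hu : ContDiffOn ℝ 2 u E)
    {x : V n} (hx : x ∈ E) (v : V n) :
    fderiv ℝ (fun y => fderiv ℝ u y v) x = fderiv ℝ (fderiv ℝ u) x v := by
  ext w
  rw [fderiv_apply_eq hE hu hx, sndSymm hE hu hx]

/-- product of a `C^1` function on an open set and of a `C^1` function with support in that set -/
theorem contDiff_mul_of_tsupport {E : Set (V n)} (hE : IsOpen E) {f χ : V n → ℝ}
    (hf : ContDiffOn ℝ 1 f E) (hχ : ContDiff ℝ 1 χ) (hs : tsupport χ ⊆ E) :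
    ContDiff ℝ 1 fun x => f x * χ x := by
  rw [contDiff_iff_contDiffAt]
  intro x
  by_cases hx : x ∈ tsupport χ
  · exact (hf.contDiffAt (hE.mem_nhds (hs hx))).mul hχ.contDiffAt
  · have h1 : (fun y => f y * χ y) =ᶠ[𝓝 x] fun _ => 0 := by
      filter_upwards [(notMem_tsupport_iff_eventuallyEq.1 hx)] with y hy
      simp [hy]
    exact contDiffAt_const.congr_of_eventuallyEq h1

/-- the Wronskian form is weakly divergence free -/
theorem Sol.weak_W {E : Set (V n)} {u : V n → ℝ} (S : Sol E u) (a b : V n)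
    {η : V n → ℝ} (hη : ContDiff ℝ 1 η) (hc : HasCompactSupport η) (hs : tsupport η ⊆ E) :
    ∫ x, dp (Wf u a b x) (fderiv ℝ η x) = 0 := by
  have key : ∀ c d : V n, Integrable (fun x => dp (fderiv ℝ (fderiv ℝ u) x d)
      (fderiv ℝ (fun y => fderiv ℝ u y c * η y) x)) := by
    intro c d
    have h1 := contDiff_mul_of_tsupport S.op (contDiffOn_fderiv_apply S.op S.c2 c) hη hs
    have h2 : HasCompactSupport (fun y => fderiv ℝ u y c * η y) := hc.mul_left
    have h3 : tsupport (fun y => fderiv ℝ u y c * η y) ⊆ E := (tsupport_mul_subset_right).trans hs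
    unfold dp
    apply integrable_finsetSum
    intro i _
    refine integrable_mul_of_tsupport S.op ?_ ?_ (h2.fderiv_apply ℝ _)
      ((tsupport_fderiv_apply_subset' _).trans h3)
    · exact (S.contD2.clm_apply continuousOn_const).clm_apply continuousOn_const
    · exact (h1.continuous_fderiv one_ne_zero).clm_apply continuous_const
  have h0 : ∀ c d : V n, ∫ x, dp (fderiv ℝ (fderiv ℝ u) x d)
      (fderiv ℝ (fun y => fderiv ℝ u y c * η y) x) = 0 := by
    intro c d
    exact weak_harm_deriv S.op S.c2 S.harm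
      (contDiff_mul_of_tsupport S.op (contDiffOn_fderiv_apply S.op S.c2 c) hη hs) hc.mul_left
      ((tsupport_mul_subset_right).trans hs) d
  have h1 : ∫ x, (dp (fderiv ℝ (fderiv ℝ u) x b) (fderiv ℝ (fun y => fderiv ℝ u y a * η y) x) -
      dp (fderiv ℝ (fderiv ℝ u) x a) (fderiv ℝ (fun y => fderiv ℝ u y b * η y) x)) = 0 := by
    rw [integral_sub (key a b) (key b a), h0, h0, sub_zero]
  rw [← h1]
  congr 1
  ext x
  by_cases hx : x ∈ E
  · have e : ∀ c : V n, fderiv ℝ (fun y => fderiv ℝ u y c * η y) x =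
        fderiv ℝ u x c • fderiv ℝ η x + η x • fderiv ℝ (fderiv ℝ u) x c := by
      intro c
      have d1 : DifferentiableAt ℝ (fun y => fderiv ℝ u y c) x :=
        ((contDiffOn_fderiv_apply S.op S.c2 c).differentiableOn one_ne_zero).differentiableAt
          (S.op.mem_nhds hx)
      have d2 : DifferentiableAt ℝ η x := hη.differentiable one_ne_zero x
      rw [fderiv_fun_mul d1 d2, fderiv_apply_eq' S.op S.c2 hx]
    rw [e, e]
    unfold Wf
    rw [dp_sub_left, dp_smul_left, dp_smul_left, dp_add_right, dp_add_right, dp_smul_right,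
      dp_smul_right, dp_smul_right, dp_smul_right, dp_comm (fderiv ℝ (fderiv ℝ u) x b)
      (fderiv ℝ (fderiv ℝ u) x a)]
    ring
  · have hx' : x ∉ tsupport η := fun h => hx (hs h)
    have e0 : fderiv ℝ η x = 0 := by
      by_contra h
      exact hx' (support_fderiv_subset ℝ h)
    have e : ∀ c : V n, fderiv ℝ (fun y => fderiv ℝ u y c * η y) x = 0 := by
      intro c
      by_contra h
      exact hx' (tsupport_mul_subset_right (support_fderiv_subset ℝ h))
    rw [e0, e, e]
    simp [dp]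

end Run7.h184
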