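import Pool.Agent.Run7.h184.Basic

set_option autoImplicit false

open MeasureTheory Set Filter Topology Metric

namespace Run7.h184

variable {n : ℕ}

/-- the second derivative of `u` is the derivative of `x ↦ fderiv u x v` -/
theorem fderiv_apply_eq {E : Set (V n)} (hE : IsOpen E) {u : V n → ℝ} (hu : ContDiffOn ℝ 2 u E)
    {x : V n} (hx : x ∈ E) (v w : V n) :
    fderiv ℝ (fun y => fderiv ℝ u y v) x w = fderiv ℝ (fderiv ℝ u) x w v := by
  have h1 : DifferentiableAt ℝ (fderiv ℝ u) x :=
    ((hu.fderiv_of_isOpen hE (m := 1) (by norm_num)).differentiableOn one_ne_zero).differentiableAt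
      (hE.mem_nhds hx)
  have h2 := (h1.hasFDerivAt.clm_apply (hasFDerivAt_const v x)).fderiv
  have : fderiv ℝ (fun y => fderiv ℝ u y v) x = _ := h2
  rw [this]
  simp

theorem contDiffOn_fderiv_apply {E : Set (V n)} (hE : IsOpen E) {u : V n → ℝ}
    (hu : ContDiffOn ℝ 2 u E) (v : V n) : ContDiffOn ℝ 1 (fun y => fderiv ℝ u y v) E :=
  (hu.fderiv_of_isOpen hE (m := 1) (by norm_num)).clm_apply contDiffOn_const

theorem sndSymm {E : Set (V n)} (hE : IsOpen E) {u : V n → ℝ} (hu : ContDiffOn ℝ 2 u E)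
    {x : V n} (hx : x ∈ E) (v w : V n) :
    fderiv ℝ (fderiv ℝ u) x v w = fderiv ℝ (fderiv ℝ u) x w v := by
  have h := (hu.contDiffAt (hE.mem_nhds hx)).isSymmSndFDerivAt (by simp)
  exact h v w

/-- harmonic functions are weakly harmonic -/
theorem weak_harm {E : Set (V n)} (hE : IsOpen E) {u : V n → ℝ} (hu : ContDiffOn ℝ 2 u E)
    (hh : ∀ x ∈ E, ∑ i, fderiv ℝ (fderiv ℝ u) x (bv i) (bv i) = 0)
    {χ : V n → ℝ} (hχ : ContDiff ℝ 1 χ) (hc : HasCompactSupport χ) (hs : tsupport χ ⊆ E) :
    ∫ x, dp (fderiv ℝ u x) (fderiv ℝ χ x) = 0 := by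
  have hu1 : ∀ i, ContDiffOn ℝ 1 (fun y => fderiv ℝ u y (bv i)) E :=
    fun i => contDiffOn_fderiv_apply hE hu (bv i)
  have hχ' : ∀ i, Continuous fun x => fderiv ℝ χ x (bv i) :=
    fun i => (hχ.continuous_fderiv one_ne_zero).clm_apply continuous_const
  have key : ∀ x, ∑ i, fderiv ℝ (fun y => fderiv ℝ u y (bv i)) x (bv i) * χ x = 0 := by
    intro x
    by_cases hx : x ∈ E
    · rw [← Finset.sum_mul]
      have : ∑ i, fderiv ℝ (fun y => fderiv ℝ u y (bv i)) x (bv i) = 0 := by
        rw [← hh x hx]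
        exact Finset.sum_congr rfl fun i _ => fderiv_apply_eq hE hu hx _ _
      rw [this, zero_mul]
    · have : χ x = 0 := by
        by_contra h
        exact hx (hs (subset_tsupport _ h))
      simp [this]
  unfold dp
  rw [integral_finsetSum]
  · have : ∀ i, ∫ x, fderiv ℝ u x (bv i) * fderiv ℝ χ x (bv i) =
        - ∫ x, fderiv ℝ (fun y => fderiv ℝ u y (bv i)) x (bv i) * χ x :=
      fun i => ibp hE (hu1 i) hχ hc hs (bv i)
    rw [Finset.sum_congr rfl fun i _ => this i, Finset.sum_neg_distrib, ← integral_finsetSum]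
    · simp [key]
    · intro i _
      refine integrable_mul_of_tsupport hE ?_ hχ.continuous hc hs
      exact ((hu1 i).continuousOn_fderiv_of_isOpen hE le_rfl).clm_apply continuousOn_const
  · intro i _
    exact integrable_mul_of_tsupport hE (hu1 i).continuousOn (hχ' i) (hc.fderiv_apply ℝ _)
      ((tsupport_fderiv_apply_subset' _).trans hs)

/-- the derivatives of harmonic functions are weakly harmonic -/
theorem weak_harm_deriv {E : Set (V n)} (hE : IsOpen E) {u : V n → ℝ} (hu : ContDiffOn ℝ 2 u E)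
    (hh : ∀ x ∈ E, ∑ i, fderiv ℝ (fderiv ℝ u) x (bv i) (bv i) = 0)
    {χ : V n → ℝ} (hχ : ContDiff ℝ 1 χ) (hc : HasCompactSupport χ) (hs : tsupport χ ⊆ E)
    (a : V n) :
    ∫ x, dp (fderiv ℝ (fderiv ℝ u) x a) (fderiv ℝ χ x) = 0 := by
  obtain ⟨δ, hδ, hδE⟩ := hc.exists_cthickening_subset_open hE hs
  set K := cthickening δ (tsupport χ) with hK
  have hKc : IsCompact K := hc.cthickening
  have hD2 : ContinuousOn (fderiv ℝ (fderiv ℝ u)) E :=
    (hu.fderiv_of_isOpen hE (m := 1) (by norm_num)).continuousOn_fderiv_of_isOpen hE le_rfl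
  have hD1 : ContinuousOn (fderiv ℝ u) E := hu.continuousOn_fderiv_of_isOpen hE (by norm_num)
  obtain ⟨C, hC⟩ : ∃ C, ∀ x ∈ K, ‖fderiv ℝ (fderiv ℝ u) x‖ ≤ C := by
    have hn : ContinuousOn (fun x => ‖fderiv ℝ (fderiv ℝ u) x‖) K :=
      (continuous_norm (E := V n →L[ℝ] V n →L[ℝ] ℝ)).comp_continuousOn (hD2.mono hδE)
    obtain ⟨C, hC⟩ := hKc.bddAbove_image hn
    exact ⟨C, fun x hx => hC (mem_image_of_mem _ hx)⟩
  -- small parameters
  set s : Set ℝ := {h | |h| * ‖a‖ < δ} with hsdef
  have hs0 : s ∈ 𝓝 (0:ℝ) := by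
    have : ContinuousAt (fun h : ℝ => |h| * ‖a‖) 0 := by fun_prop
    have h2 : Tendsto (fun h : ℝ => |h| * ‖a‖) (𝓝 0) (𝓝 0) := by simpa using this.tendsto
    exact h2.eventually (gt_mem_nhds hδ)
  have hmem : ∀ h ∈ s, ∀ x ∈ tsupport χ, x + h • a ∈ K := by
    intro h hh x hx
    apply mem_cthickening_of_dist_le (x + h • a) x δ _ hx
    simp only [dist_eq_norm, add_sub_cancel_left, norm_smul, Real.norm_eq_abs]
    exact le_of_lt hh
  have hχ0 : ∀ x, x ∉ tsupport χ → fderiv ℝ χ x = 0 := by
    intro x hx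
    by_contra h'
    exact hx (support_fderiv_subset ℝ h')
  set F : ℝ → V n → ℝ := fun h x => dp (fderiv ℝ u (x + h • a)) (fderiv ℝ χ x) with hF
  set F' : ℝ → V n → ℝ := fun h x => dp (fderiv ℝ (fderiv ℝ u) (x + h • a) a) (fderiv ℝ χ x)
    with hF'
  have hzero : ∀ h ∈ s, ∫ x, F h x = 0 := by
    intro h hh'
    have hE' : IsOpen ((fun x : V n => x + h • a) ⁻¹' E) := hE.preimage (by fun_prop)
    have hu' : ContDiffOn ℝ 2 (fun x => u (x + h • a)) ((fun x : V n => x + h • a) ⁻¹' E) :=
      hu.comp (by fun_prop) (fun x hx => hx)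
    have e1 : fderiv ℝ (fun x => u (x + h • a)) = fun x => fderiv ℝ u (x + h • a) := by
      ext1 x; exact fderiv_comp_add_right (h • a)
    have := weak_harm hE' hu' (fun x hx => by
      rw [e1]
      have e2 : fderiv ℝ (fun x => fderiv ℝ u (x + h • a)) x =
          fderiv ℝ (fderiv ℝ u) (x + h • a) := fderiv_comp_add_right (h • a)
      rw [e2]
      exact hh _ hx) hχ hc (fun x hx => hδE (hmem h hh' x hx))
    rw [e1] at this
    exact this
  have hcont : ∀ h ∈ s, Continuous (F h) := by
    intro h hh'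
    have : F h = fun x => ∑ i, fderiv ℝ u (x + h • a) (bv i) * fderiv ℝ χ x (bv i) := rfl
    rw [this]
    apply continuous_finsetSum
    intro i _
    apply continuous_of_tsupport
    intro x hx
    have hx1 : x ∈ tsupport χ := tsupport_fderiv_apply_subset' _ (tsupport_mul_subset_right hx)
    have hx2 : x + h • a ∈ E := hδE (hmem h hh' x hx1)
    have c1 : ContinuousAt (fun x : V n => fderiv ℝ u (x + h • a)) x :=
      ContinuousAt.comp (f := fun x : V n => x + h • a) (hD1.continuousAt (hE.mem_nhds hx2))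
        (by fun_prop)
    exact (c1.clm_apply continuousAt_const).mul
      ((hχ.continuous_fderiv one_ne_zero).clm_apply continuous_const).continuousAt
  have hcont' : Continuous (F' 0) := by
    have : F' 0 = fun x => ∑ i, fderiv ℝ (fderiv ℝ u) (x + (0:ℝ) • a) a (bv i) *
      fderiv ℝ χ x (bv i) := rfl
    rw [this]
    apply continuous_finsetSum
    intro i _
    simp only [zero_smul, add_zero]
    apply continuous_mul_of_tsupport hE
    · exact (hD2.clm_apply continuousOn_const).clm_apply continuousOn_const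
    · exact (hχ.continuous_fderiv one_ne_zero).clm_apply continuous_const
    · exact (tsupport_fderiv_apply_subset' _).trans hs
  have hcs : ∀ h, HasCompactSupport (F h) := by
    intro h
    apply HasCompactSupport.of_support_subset_isCompact hc
    intro x hx
    by_contra hx'
    exact hx (by simp [hF, hχ0 x hx', dp])
  have h0s : (0:ℝ) ∈ s := mem_of_mem_nhds hs0
  have main := hasDerivAt_integral_of_dominated_loc_of_deriv_le (μ := (volume : Measure (V n)))
    (F := F) (F' := F') (bound := fun x => C * ‖a‖ * ‖fderiv ℝ χ x‖) hs0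
    (Filter.eventually_of_mem hs0 fun h hh' => (hcont h hh').aestronglyMeasurable)
    ((hcont 0 h0s).integrable_of_hasCompactSupport (hcs 0))
    hcont'.aestronglyMeasurable
    (Eventually.of_forall fun x h hh' => by
      by_cases hx : x ∈ tsupport χ
      · rw [Real.norm_eq_abs]
        refine (abs_dp_le _ _).trans ?_
        apply mul_le_mul_of_nonneg_right _ (norm_nonneg _)
        refine (ContinuousLinearMap.le_opNorm _ _).trans ?_
        exact mul_le_mul_of_nonneg_right (hC _ (hmem h hh' x hx)) (norm_nonneg _)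
      · simp [hF', hχ0 x hx, dp])
    (((hχ.continuous_fderiv one_ne_zero).norm.integrable_of_hasCompactSupport
      (hc.fderiv ℝ).norm).const_mul _)
    (Eventually.of_forall fun x h hh' => by
      by_cases hx : x ∈ tsupport χ
      · have hx2 : x + h • a ∈ E := hδE (hmem h hh' x hx)
        have d1 : HasFDerivAt (fderiv ℝ u) (fderiv ℝ (fderiv ℝ u) (x + h • a)) (x + h • a) :=
          (((hu.fderiv_of_isOpen hE (m := 1) (by norm_num)).differentiableOn
            one_ne_zero).differentiableAt (hE.mem_nhds hx2)).hasFDerivAt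
        have d2 : HasDerivAt (fun h : ℝ => x + h • a) a h := by
          simpa using ((hasDerivAt_id h).smul_const a).const_add x
        have d3 : HasDerivAt (fun h : ℝ => fderiv ℝ u (x + h • a))
            (fderiv ℝ (fderiv ℝ u) (x + h • a) a) h := d1.comp_hasDerivAt h d2
        simp only [hF, hF', dp]
        apply HasDerivAt.fun_sum
        intro i _
        have d4 := (d3.clm_apply (hasDerivAt_const h (bv i))).mul_const (fderiv ℝ χ x (bv i))
        simpa using d4
      · simp only [hF, hF', hχ0 x hx, dp]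
        simpa using hasDerivAt_const h (0:ℝ))
  have h1 : HasDerivAt (fun h => ∫ x, F h x) 0 0 := by
    apply (hasDerivAt_const (0:ℝ) (0:ℝ)).congr_of_eventuallyEq
    exact Filter.eventually_of_mem hs0 fun h hh' => hzero h hh'
  have h2 := main.2.unique h1
  simpa [hF'] using h2

end Run7.h184
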